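import Pool.Agent.Lib.MP_dd84fd_nt.E2.FBound
import Pool.Agent.Lib.MP_dd84fd_nt.E2.Defs

/-!
# Random linear images: mean squares of the primes and of their model
-/

set_option autoImplicit false

namespace Pool.MP_dd84fd_nt.RL

open Finset Pool.MP_dd84fd_nt.En Pool.MP_dd84fd_nt.E2

theorem ev_ratio (D : ℕ) : ∃ X0 : ℕ, ∀ X : ℕ, X0 ≤ X → ∀ w : ℕ, (w : ℝ) ≤ (Real.log X) ^ D →
    ((primorial w : ℝ) / (Nat.totient (primorial w) : ℝ)) ^ 2 ≤ Real.log X := by
  obtain ⟨C, hC, h⟩ := primorial_ratio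
  have hlit : (fun L : ℝ => C * (Real.log 2 + D * Real.log L)) =o[Filter.atTop]
      (fun L : ℝ => L ^ (1 / 2 : ℝ)) := by
    refine Asymptotics.IsLittleO.const_mul_left ?_ C
    refine Asymptotics.IsLittleO.add ?_ ?_
    · exact (Asymptotics.isLittleO_const_left_of_ne (by positivity)).2
        (Filter.tendsto_abs_atTop_atTop.comp (tendsto_rpow_atTop (by norm_num)))
    · exact Asymptotics.IsLittleO.const_mul_left (isLittleO_log_rpow_atTop (by norm_num)) (D : ℝ)
  have hev : ∀ᶠ L : ℝ in Filter.atTop, 1 ≤ L ∧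
      (C * (Real.log 2 + D * Real.log L)) ^ 2 ≤ L := by
    have h1 := hlit.bound (one_pos)
    filter_upwards [h1, Filter.eventually_ge_atTop (1 : ℝ)] with L hL hL1
    refine ⟨hL1, ?_⟩
    rw [Real.norm_eq_abs, one_mul, Real.norm_of_nonneg (by positivity)] at hL
    calc (C * (Real.log 2 + D * Real.log L)) ^ 2 = |C * (Real.log 2 + D * Real.log L)| ^ 2 :=
          (sq_abs _).symm
      _ ≤ (L ^ (1 / 2 : ℝ)) ^ 2 := pow_le_pow_left₀ (abs_nonneg _) hL 2
      _ = L := by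
          rw [← Real.rpow_natCast, ← Real.rpow_mul (by linarith)]
          norm_num
  have hev2 : ∀ᶠ X : ℕ in Filter.atTop, 1 ≤ Real.log X ∧
      (C * (Real.log 2 + D * Real.log (Real.log X))) ^ 2 ≤ Real.log X :=
    (Real.tendsto_log_atTop.comp tendsto_natCast_atTop_atTop).eventually hev
  obtain ⟨X0, hX0⟩ := Filter.eventually_atTop.1 hev2
  refine ⟨X0, fun X hX w hw => ?_⟩
  obtain ⟨hL1, hL2⟩ := hX0 X hX
  rcases Nat.eq_zero_or_pos w with h0 | h0
  · rw [h0, show primorial 0 = 1 by decide]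
    simpa using hL1
  · refine le_trans (pow_le_pow_left₀ (by positivity) ((h w h0).trans ?_) 2) hL2
    refine mul_le_mul_of_nonneg_left ?_ hC.le
    have hpos : (0 : ℝ) < Real.log X := by linarith
    have h1 : (w : ℝ) + 1 ≤ 2 * (Real.log X) ^ D := by
      have : (1 : ℝ) ≤ (Real.log X) ^ D := one_le_pow₀ hL1
      linarith
    have h2 : Real.log (w + 1) ≤ Real.log (2 * (Real.log X) ^ D) :=
      Real.log_le_log (by positivity) h1
    rw [Real.log_mul (by norm_num) (by positivity), Real.log_pow] at h2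
    exact h2

/-- splitting at the square root -/
theorem split_sqrt (F : ℕ → ℝ) (X : ℕ) (M c : ℝ) (hM : 0 ≤ M) (hc : 0 ≤ c)
    (h1 : ∀ n ∈ Icc 1 X, F n ≤ M)
    (h2 : ∀ n ∈ Icc 1 X, (X : ℝ) ^ (1 / 2 : ℝ) < n → F n ≤ c) :
    ∑ n ∈ Icc 1 X, F n ≤ (X : ℝ) ^ (1 / 2 : ℝ) * M + X * c := by
  classical
  have h3 : ∀ n ∈ Icc 1 X, F n ≤ (if (n : ℝ) ≤ (X : ℝ) ^ (1 / 2 : ℝ) then M else 0) + c := by
    intro n hn
    split_ifs with h
    · linarith [h1 n hn]
    · linarith [h2 n hn (not_le.1 h)]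
  refine (Finset.sum_le_sum h3).trans ?_
  rw [Finset.sum_add_distrib, Finset.sum_const, nsmul_eq_mul, ← Finset.sum_filter,
    Finset.sum_const, nsmul_eq_mul, Nat.card_Icc, Nat.add_sub_cancel]
  refine add_le_add (mul_le_mul_of_nonneg_right ?_ hM) le_rfl
  have h4 : (Icc 1 X).filter (fun n : ℕ => (n : ℝ) ≤ (X : ℝ) ^ (1 / 2 : ℝ)) ⊆
      Icc 1 ⌊(X : ℝ) ^ (1 / 2 : ℝ)⌋₊ := by
    intro n hn
    rw [mem_filter, mem_Icc] at hn
    exact mem_Icc.2 ⟨hn.1.1, Nat.le_floor hn.2⟩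
  have h5 := card_le_card h4
  rw [Nat.card_Icc, Nat.add_sub_cancel] at h5
  calc (((Icc 1 X).filter (fun n : ℕ => (n : ℝ) ≤ (X : ℝ) ^ (1 / 2 : ℝ))).card : ℝ) ≤
        (⌊(X : ℝ) ^ (1 / 2 : ℝ)⌋₊ : ℝ) := by exact_mod_cast h5
    _ ≤ _ := Nat.floor_le (by positivity)

theorem log_half (X n : ℕ) (hX : 1 ≤ X) (hn : (X : ℝ) ^ (1 / 2 : ℝ) < n) :
    Real.log X / 2 ≤ Real.log n := by
  have hX1 : (1 : ℝ) ≤ X := by exact_mod_cast hX
  have h1 : Real.log ((X : ℝ) ^ (1 / 2 : ℝ)) ≤ Real.log n :=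
    Real.log_le_log (by positivity) hn.le
  rw [Real.log_rpow (by linarith)] at h1
  linarith

/-- Chebyshev's upper bound -/
theorem pi_le : ∃ X0 : ℕ, ∀ X : ℕ, X0 ≤ X →
    (((Icc 1 X).filter Nat.Prime).card : ℝ) ≤ 4 * X / Real.log X := by
  have h1 := (isLittleO_log_rpow_atTop (show (0 : ℝ) < 1 / 2 by norm_num)).bound
    (show (0 : ℝ) < 1 by norm_num)
  have h2 := tendsto_natCast_atTop_atTop (R := ℝ) |>.eventually h1
  obtain ⟨X0, hX0⟩ := Filter.eventually_atTop.mp h2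
  refine ⟨max X0 3, fun X hX => ?_⟩
  have hX3 : 3 ≤ X := (le_max_right _ _).trans hX
  have hXR : (3 : ℝ) ≤ X := by exact_mod_cast hX3
  have hL : 0 < Real.log X := Real.log_pos (by linarith)
  have h3 := hX0 X ((le_max_left _ _).trans hX)
  rw [one_mul, Real.norm_of_nonneg hL.le, Real.norm_of_nonneg (by positivity)] at h3
  obtain ⟨R, hR⟩ : ∃ R : ℝ, R = (X : ℝ) ^ (1 / 2 : ℝ) := ⟨_, rfl⟩
  have hRR : R * R = X := by
    rw [hR, ← Real.rpow_add (by linarith)]
    norm_num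
  have hR0 : 0 < R := by rw [hR]; positivity
  rw [← hR] at h3
  have hth := Chebyshev.theta_le_log4_mul_x (x := (X : ℝ)) (by linarith)
  have hl4 : Real.log 4 ≤ 1.4 := by
    have : Real.log 4 = 2 * Real.log 2 := by
      rw [show (4 : ℝ) = 2 ^ 2 by norm_num, Real.log_pow]; norm_num
    have := Real.log_two_lt_d9
    linarith
  have h5 : (((Icc 1 X).filter Nat.Prime).card : ℝ) ≤ R + (2 / Real.log X) * Chebyshev.theta X := by
    rw [Chebyshev.theta_eq_sum_Icc, Nat.floor_natCast, Finset.mul_sum]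
    have h6 : ∀ n ∈ (Icc 1 X).filter Nat.Prime, (1 : ℝ) ≤
        (if (n : ℝ) ≤ R then 1 else 0) + 2 / Real.log X * Real.log n := by
      intro n hn
      rw [mem_filter, mem_Icc] at hn
      have hn1 : (1 : ℝ) ≤ n := by exact_mod_cast hn.1.1
      have hn2 : 0 ≤ Real.log n := Real.log_nonneg hn1
      split_ifs with h
      · have : 0 ≤ 2 / Real.log X * Real.log n := by positivity
        linarith
      · rw [not_le, hR] at h
        have h7 := log_half X n (by omega) h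
        rw [zero_add, div_mul_eq_mul_div, le_div_iff₀ hL]
        linarith
    have h7 : (((Icc 1 X).filter Nat.Prime).card : ℝ) =
        ∑ n ∈ (Icc 1 X).filter Nat.Prime, (1 : ℝ) := by simp
    rw [h7]
    refine (Finset.sum_le_sum h6).trans ?_
    rw [Finset.sum_add_distrib]
    refine add_le_add ?_ ?_
    · rw [← Finset.sum_filter, Finset.sum_const, nsmul_eq_mul, mul_one]
      have h4 : ((Icc 1 X).filter Nat.Prime).filter (fun n : ℕ => (n : ℝ) ≤ R) ⊆
          Icc 1 ⌊R⌋₊ := by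
        intro n hn
        rw [mem_filter, mem_filter, mem_Icc] at hn
        exact mem_Icc.2 ⟨hn.1.1.1, Nat.le_floor hn.2⟩
      have h5 := card_le_card h4
      rw [Nat.card_Icc, Nat.add_sub_cancel] at h5
      exact (by exact_mod_cast h5 : ((((Icc 1 X).filter Nat.Prime).filter
        (fun n : ℕ => (n : ℝ) ≤ R)).card : ℝ) ≤ (⌊R⌋₊ : ℝ)).trans (Nat.floor_le hR0.le)
    · refine Finset.sum_le_sum_of_subset_of_nonneg ?_ ?_
      · intro n hn
        rw [mem_filter, mem_Icc] at hn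
        rw [mem_filter, mem_Icc]
        exact ⟨⟨by omega, hn.1.2⟩, hn.2⟩
      · intro n _ _
        have : 0 ≤ Real.log (n : ℝ) := Real.log_natCast_nonneg n
        positivity
  refine h5.trans ?_
  rw [le_div_iff₀ hL]
  have h8 : (R + 2 / Real.log X * Chebyshev.theta X) * Real.log X =
      R * Real.log X + 2 * Chebyshev.theta X := by
    field_simp
  rw [h8]
  nlinarith

theorem f2_bound (w n : ℕ) : 0 ≤ f2 w n ∧
    f2 w n ≤ 2 * ((primorial w : ℝ) / (Nat.totient (primorial w) : ℝ)) := by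
  have h0 : 0 ≤ f1 w n := f1_nonneg w n
  have h1 : f1 w n ≤ (primorial w : ℝ) / (Nat.totient (primorial w) : ℝ) := by
    unfold f1
    split_ifs
    · exact le_rfl
    · positivity
  refine ⟨div_nonneg h0 (Real.log_natCast_nonneg n), ?_⟩
  unfold f2
  rcases Nat.lt_or_ge n 2 with h | h
  · have h2 : Real.log (n : ℝ) = 0 := by
      interval_cases n <;> simp
    rw [h2, div_zero]
    positivity
  · have h2 : (2 : ℝ) ≤ n := by exact_mod_cast h
    have h3 : Real.log 2 ≤ Real.log n := Real.log_le_log (by norm_num) h2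
    have h4 := Real.log_two_gt_d9
    rw [div_le_iff₀ (by linarith)]
    nlinarith

/-- mean square of the model -/
theorem f2_sq (D : ℕ) : ∃ X0 : ℕ, ∀ X : ℕ, X0 ≤ X → ∀ w : ℕ, (w : ℝ) ≤ (Real.log X) ^ D →
    ∑ n ∈ Icc 1 X, f2 w n ^ 2 ≤ 5 * X / Real.log X := by
  obtain ⟨X1, hX1⟩ := ev_ratio D
  have h1 := (isLittleO_log_rpow_rpow_atTop (2 : ℝ) (show (0 : ℝ) < 1 / 2 by norm_num)).bound
    (show (0 : ℝ) < 1 / 4 by norm_num)
  have h2 := tendsto_natCast_atTop_atTop (R := ℝ) |>.eventually h1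
  obtain ⟨X0, hX0⟩ := Filter.eventually_atTop.mp h2
  refine ⟨max (max X0 X1) 3, fun X hX w hw => ?_⟩
  have hX3 : 3 ≤ X := (le_max_right _ _).trans hX
  have hXR : (3 : ℝ) ≤ X := by exact_mod_cast hX3
  have hL : 0 < Real.log X := Real.log_pos (by linarith)
  have h3 := hX0 X ((le_max_left _ _).trans ((le_max_left _ _).trans hX))
  have h4 := hX1 X ((le_max_right _ _).trans ((le_max_left _ _).trans hX)) w hw
  have h20 : (Real.log X : ℝ) ^ (2 : ℝ) = Real.log X ^ 2 := by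
    rw [← Real.rpow_natCast]; norm_num
  rw [h20, Real.norm_of_nonneg (by positivity), Real.norm_of_nonneg (by positivity)] at h3
  obtain ⟨R, hR⟩ : ∃ R : ℝ, R = (X : ℝ) ^ (1 / 2 : ℝ) := ⟨_, rfl⟩
  have hRR : R * R = X := by
    rw [hR, ← Real.rpow_add (by linarith)]
    norm_num
  have hR0 : 0 < R := by rw [hR]; positivity
  obtain ⟨K, hK⟩ : ∃ K : ℝ, K = (primorial w : ℝ) / (Nat.totient (primorial w) : ℝ) := ⟨_, rfl⟩
  have hK0 : 0 ≤ K := by rw [hK]; positivity
  have h5 := split_sqrt (fun n => f2 w n ^ 2) X (4 * Real.log X) (4 / Real.log X) (by positivity)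
    (by positivity) (fun n _ => by
      have h6 := f2_bound w n
      rw [← hK] at h6 h4
      have h7 := pow_le_pow_left₀ h6.1 h6.2 2
      nlinarith) (fun n hn hlt => by
      have h6 := log_half X n (by omega) hlt
      have h7 : f1 w n ≤ K := by
        rw [hK]
        unfold f1
        split_ifs
        · exact le_rfl
        · positivity
      have h8 : 0 ≤ f1 w n := f1_nonneg w n
      have h9 : f2 w n ≤ K / (Real.log X / 2) := by
        unfold f2
        exact div_le_div₀ hK0 h7 (by positivity) h6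
      have h10 := pow_le_pow_left₀ (f2_bound w n).1 h9 2
      refine h10.trans ?_
      rw [← hK] at h4
      rw [div_pow, div_pow, div_le_div_iff₀ (by positivity) hL]
      nlinarith)
  rw [← hR] at h5 h3
  refine h5.trans ?_
  rw [le_div_iff₀ hL]
  have h11 : (R * (4 * Real.log X) + X * (4 / Real.log X)) * Real.log X =
      4 * (R * Real.log X ^ 2) + 4 * X := by
    field_simp
  rw [h11]
  nlinarith

end Pool.MP_dd84fd_nt.RL
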