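import Pool.Agent.Lib.MP_dd84fd_nt.RL.Small

/-!
# Random linear images: half of every translate is even
-/

set_option autoImplicit false

namespace Pool.MP_dd84fd_nt.RL

open Finset Pool.Agent.Lib.MP_dd84fd_nt.Dilates

variable {q : ℕ} [Fact q.Prime] {k : ℕ}

/-- number of representations `x = p + b`, `p ∈ A`, `b ∈ B` -/
def rp (A B : Finset (ZMod q)) (x : ZMod q) : ℝ := ∑ p ∈ A, if x - p ∈ B then 1 else 0

theorem dev2 (A B : Finset (ZMod q)) (S : Finset (Fin k → ZMod q)) (l : Fin k → ZMod q)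
    (b : ZMod q) :
    (∑ s ∈ S, rp A B (b + dot l s) - S.card * A.card * B.card / q) ^ 2 ≤ A.card * VV B S l := by
  have h0 : ∑ s ∈ S, rp A B (b + dot l s) = ∑ p ∈ A, cc B S l (b - p) := by
    unfold rp cc
    rw [Finset.sum_comm]
    refine Finset.sum_congr rfl fun p _ => Finset.sum_congr rfl fun s _ => ?_
    congr 2
    ring
  have h1 : ∑ s ∈ S, rp A B (b + dot l s) - S.card * A.card * B.card / q =
      ∑ p ∈ A, (cc B S l (b - p) - S.card * B.card / q) := by
    rw [h0, Finset.sum_sub_distrib, Finset.sum_const, nsmul_eq_mul]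
    ring
  rw [h1]
  refine (sq_sum_le_card_mul_sum_sq (s := A)).trans ?_
  refine mul_le_mul_of_nonneg_left ?_ (Nat.cast_nonneg _)
  unfold VV
  rw [← Fintype.sum_equiv (Equiv.subLeft b)
    (fun p => (cc B S l (b - p) - S.card * B.card / q) ^ 2) _ (fun p => rfl)]
  exact Finset.sum_le_univ_sum_of_nonneg (fun _ => sq_nonneg _)

/-- the residues `0, …, m-1` -/
def AJ (q m : ℕ) : Finset (ZMod q) := (range m).image (fun n : ℕ => (n : ZMod q))

omit [Fact q.Prime] in
theorem AJ_card (m : ℕ) (hm : m ≤ q) : (AJ q m).card = m := by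
  unfold AJ
  rw [Finset.card_image_of_injOn, card_range]
  intro a ha b hb hab
  simp only [coe_range, Set.mem_Iio] at ha hb
  have h1 := congrArg ZMod.val hab
  simp only at h1
  rwa [ZMod.val_cast_of_lt (by omega), ZMod.val_cast_of_lt (by omega)] at h1

theorem mem_AJ (m : ℕ) (hm : m ≤ q) (x : ZMod q) : x ∈ AJ q m ↔ x.val < m := by
  unfold AJ
  constructor
  · intro hx
    obtain ⟨n, hn, rfl⟩ := mem_image.1 hx
    rw [mem_range] at hn
    rwa [ZMod.val_cast_of_lt (by omega)]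
  · intro hx
    exact mem_image.2 ⟨x.val, mem_range.2 hx, ZMod.natCast_zmod_val x⟩

theorem rp_le (A B : Finset (ZMod q)) (x : ZMod q) : rp A B x ≤ B.card := by
  classical
  unfold rp
  rw [← Finset.sum_filter, Finset.sum_const, nsmul_eq_mul, mul_one]
  have h1 : (A.filter (fun p => x - p ∈ B)).card ≤ B.card := by
    refine Finset.card_le_card_of_injOn (fun p => x - p) (fun p hp => ?_) (fun a _ b _ hab => ?_)
    · exact (mem_filter.1 hp).2
    · exact sub_right_injective hab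
  exact_mod_cast h1

theorem rp_low (hq3 : 3 ≤ q) (m h : ℕ) (hm : m + 2 * h ≤ (q + 3) / 2) (x : ZMod q)
    (hx : ¬ x.val ≤ (q - 1) / 2) : rp (AJ q m) (AI q h) x = 0 := by
  classical
  have hq : 0 < q := (Fact.out : q.Prime).pos
  unfold rp
  refine Finset.sum_eq_zero fun p hp => ?_
  have hp' := (mem_AJ m (by omega) p).1 hp
  rw [if_neg]
  intro h2
  have h3 := (mem_AI h (by omega) (x - p)).1 h2
  apply hx
  have h4 : x = ((p.val + (x - p).val : ℕ) : ZMod q) := by
    push_cast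
    rw [ZMod.natCast_zmod_val, ZMod.natCast_zmod_val]
    ring
  have h5 : x.val = p.val + (x - p).val := by
    conv_lhs => rw [h4]
    exact ZMod.val_cast_of_lt (by omega)
  omega

theorem low_count (hq3 : 3 ≤ q) (m h : ℕ) (h1 : 1 ≤ h) (hm : m + 2 * h ≤ (q + 3) / 2)
    (S : Finset (Fin k → ZMod q)) (l : Fin k → ZMod q) (b : ZMod q) (V : ℝ) (hV0 : 0 ≤ V)
    (hV : m * VV (AI q h) S l ≤ (2 * h * V) ^ 2) :
    S.card * m / q - V ≤
      ((S.filter (fun s => (b + dot l s).val ≤ (q - 1) / 2)).card : ℝ) := by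
  classical
  have hq0 : 0 < q := (Fact.out : q.Prime).pos
  have hq : (0 : ℝ) < q := by exact_mod_cast hq0
  have hh0 : (0 : ℝ) < h := by exact_mod_cast h1
  have h2 := dev2 (AJ q m) (AI q h) S l b
  rw [AI_card h (by omega), AJ_card m (by omega)] at h2
  push_cast at h2
  have h3 := abs_le_of_sq_le_sq' (h2.trans hV) (by positivity)
  have h5 : ∑ s ∈ S, rp (AJ q m) (AI q h) (b + dot l s) ≤
      ((S.filter (fun s => (b + dot l s).val ≤ (q - 1) / 2)).card : ℝ) * (2 * h) := by
    rw [← nsmul_eq_mul, ← Finset.sum_const, Finset.sum_filter]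
    refine Finset.sum_le_sum fun s _ => ?_
    split_ifs with h6
    · refine (rp_le _ _ _).trans (le_of_eq ?_)
      rw [AI_card h (by omega)]
      push_cast
      ring
    · rw [rp_low hq3 m h hm _ h6]
  have h6 : (S.card * m / q - V) * (2 * h) ≤
      ((S.filter (fun s => (b + dot l s).val ≤ (q - 1) / 2)).card : ℝ) * (2 * h) := by
    refine le_trans ?_ h5
    have h7 : ((S.card : ℝ) * m / q - V) * (2 * h) = S.card * m * (2 * h) / q - 2 * h * V := by
      ring
    rw [h7]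
    linarith [h3.1]
  exact le_of_mul_le_mul_right h6 (by positivity)

theorem dot_smul (c : ZMod q) (l s : Fin k → ZMod q) : dot (c • l) s = c * dot l s := by
  unfold dot
  rw [Finset.mul_sum]
  exact Finset.sum_congr rfl fun i _ => by rw [Pi.smul_apply, smul_eq_mul, mul_assoc]

theorem even_of_half (hq2 : q ≠ 2) (y : ZMod q) (hy : ((2 : ZMod q)⁻¹ * y).val ≤ (q - 1) / 2) :
    Even y.val := by
  have hqp : q.Prime := Fact.out
  have h2 : (2 : ZMod q) ≠ 0 := by
    intro h
    have h3 : ((2 : ℕ) : ZMod q) = 0 := by exact_mod_cast h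
    rw [ZMod.natCast_eq_zero_iff] at h3
    exact hq2 ((Nat.prime_dvd_prime_iff_eq hqp Nat.prime_two).1 h3)
  obtain ⟨z, hz⟩ : ∃ z : ZMod q, z = (2 : ZMod q)⁻¹ * y := ⟨_, rfl⟩
  rw [← hz] at hy
  have h3 : y = ((2 * z.val : ℕ) : ZMod q) := by
    push_cast
    rw [ZMod.natCast_zmod_val, hz, ← mul_assoc, mul_inv_cancel₀ h2, one_mul]
  rw [h3, ZMod.val_cast_of_lt (by have := hqp.two_le; omega)]
  exact even_two_mul _

theorem even_count (hq3 : 3 ≤ q) (m h : ℕ) (h1 : 1 ≤ h) (hm : m + 2 * h ≤ (q + 3) / 2)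
    (S : Finset (Fin k → ZMod q)) (l : Fin k → ZMod q) (b : ZMod q) (V : ℝ) (hV0 : 0 ≤ V)
    (hV : m * VV (AI q h) S ((2 : ZMod q)⁻¹ • l) ≤ (2 * h * V) ^ 2) :
    S.card * m / q - V ≤ ((S.filter (fun s => Even (b + dot l s).val)).card : ℝ) := by
  classical
  refine (low_count hq3 m h h1 hm S ((2 : ZMod q)⁻¹ • l) ((2 : ZMod q)⁻¹ * b) V hV0 hV).trans ?_
  have h2 : S.filter (fun s => ((2 : ZMod q)⁻¹ * b + dot ((2 : ZMod q)⁻¹ • l) s).val ≤
      (q - 1) / 2) ⊆ S.filter (fun s => Even (b + dot l s).val) := by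
    intro s hs
    rw [mem_filter] at hs ⊢
    refine ⟨hs.1, even_of_half (by omega) _ ?_⟩
    rw [mul_add, ← dot_smul]
    exact hs.2
  exact_mod_cast card_le_card h2

/-- few linear forms have a large variance after halving -/
theorem few_VV2 (hq2 : q ≠ 2) (h : ℕ) (hh : 2 * h ≤ q) (S : Finset (Fin k → ZMod q)) (V0 : ℝ)
    (hV : 0 < V0) :
    ((univ.filter (fun l : Fin k → ZMod q =>
      V0 < VV (AI q h) S ((2 : ZMod q)⁻¹ • l))).card : ℝ) * V0 ≤
      (q : ℝ) ^ k * (S.card * (2 * h)) := by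
  classical
  have hqp : q.Prime := Fact.out
  have h2 : (2 : ZMod q) ≠ 0 := by
    intro h
    have h3 : ((2 : ℕ) : ZMod q) = 0 := by exact_mod_cast h
    rw [ZMod.natCast_eq_zero_iff] at h3
    exact hq2 ((Nat.prime_dvd_prime_iff_eq hqp Nat.prime_two).1 h3)
  refine le_trans ?_ (few_VV h hh S V0 hV)
  refine mul_le_mul_of_nonneg_right ?_ hV.le
  have h3 : (univ.filter (fun l : Fin k → ZMod q =>
      V0 < VV (AI q h) S ((2 : ZMod q)⁻¹ • l))).card ≤
      (univ.filter (fun l : Fin k → ZMod q => V0 < VV (AI q h) S l)).card := by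
    refine Finset.card_le_card_of_injOn (fun l => (2 : ZMod q)⁻¹ • l) (fun l hl => ?_)
      (fun a _ b _ hab => ?_)
    · have hl' := (mem_filter.1 hl).2
      exact mem_filter.2 ⟨mem_univ _, hl'⟩
    · funext i
      have h4 := congrFun hab i
      simp only [Pi.smul_apply, smul_eq_mul] at h4
      exact mul_left_cancel₀ (inv_ne_zero h2) h4
  exact_mod_cast h3

end Pool.MP_dd84fd_nt.RL
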