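import Pool.Agent.Lib.MP_dd84fd_nt.RL.Bounds
import Pool.Agent.Lib.MP_dd84fd_nt.E2.SupClose
import Pool.Agent.Lib.MP_dd84fd_nt.E2.ConvMain
import Pool.Agent.Lib.MP_dd84fd_nt.E2.SingRate

/-!
# Random linear images: the analytic input
-/

set_option autoImplicit false

namespace Pool.MP_dd84fd_nt.RL

open Finset Pool.MP_dd84fd_nt.En Pool.MP_dd84fd_nt.E2

/-- what is used about the primes `≤ X` and their model with sifting limit `w` -/
structure Good (b X w : ℕ) : Prop where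
  L_ge : 270000 ≤ Real.log X
  w_ge : 2 ≤ w
  sup : ∀ θ : ℝ, ‖P1 X θ - F2 w X θ‖ ≤ X / (Real.log X) ^ (5 * b + 5)
  f2_le : ∀ n, |f2 w n| ≤ 2 * Real.log X
  l1 : (((Icc 1 X).filter Nat.Prime).card : ℝ) + ∑ n ∈ Icc 1 X, f2 w n ^ 2 ≤ 9 * X / Real.log X
  pt : ∀ n ≤ X, Even n → 0 < n →
    |(g n : ℝ) - SS n * JJ n| ≤ |(g n : ℝ) - conv2 w n| + X / (100 * (Real.log X) ^ (2 * b + 2))
  X_ge : 272 * (Real.log X) ^ (2 * b + 2) ≤ X

private lemma ev_pow (c : ℝ) (k : ℕ) {η : ℝ} (hη : 0 < η) :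
    ∀ᶠ X : ℕ in Filter.atTop, c * (Real.log X) ^ k ≤ (X : ℝ) ^ η := by
  obtain ⟨X0, hX0⟩ := MP_log_pow c k hη
  exact Filter.eventually_atTop.2 ⟨X0, hX0⟩

private lemma ev_log (c : ℝ) : ∀ᶠ X : ℕ in Filter.atTop, c ≤ Real.log X :=
  (Real.tendsto_log_atTop.comp (tendsto_natCast_atTop_atTop (R := ℝ))).eventually_ge_atTop c

theorem params (b : ℕ) : ∃ D' X0 : ℕ, ∀ X : ℕ, X0 ≤ X → Good b X (wX D' X) := by
  obtain ⟨D0, hD0⟩ := sup_close (5 * b + 5)
  obtain ⟨D', hD'⟩ : ∃ D' : ℕ, D' = max D0 (2 * b + 5) := ⟨_, rfl⟩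
  have hD1 : D0 ≤ D' := by rw [hD']; exact le_max_left _ _
  have hD2 : 2 * b + 5 ≤ D' := by rw [hD']; exact le_max_right _ _
  obtain ⟨XC, hXC⟩ := hD0 D' hD1
  obtain ⟨η, hη, hη4, XM, hXM⟩ := conv2_main D' (by omega)
  obtain ⟨C, hC, hSR⟩ := sing_rate
  obtain ⟨XP, hXP⟩ := pi_le
  obtain ⟨XF, hXF⟩ := f2_sq D'
  obtain ⟨XR, hRat⟩ := f1_le D'
  have hev : ∀ᶠ X : ℕ in Filter.atTop, (XC ≤ X ∧ XM ≤ X ∧ XP ≤ X ∧ XF ≤ X ∧ XR ≤ X) ∧
      200 * (Real.log X) ^ (2 * b + 2) ≤ (X : ℝ) ^ η ∧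
      4800 * C + 270000 ≤ Real.log X ∧ 1 ≤ X ∧
      272 * (Real.log X) ^ (2 * b + 2) ≤ (X : ℝ) ^ (1 : ℝ) :=
    ((Filter.eventually_ge_atTop XC).and ((Filter.eventually_ge_atTop XM).and
      ((Filter.eventually_ge_atTop XP).and ((Filter.eventually_ge_atTop XF).and
        (Filter.eventually_ge_atTop XR))))).and
      ((ev_pow 200 (2 * b + 2) hη).and ((ev_log _).and ((Filter.eventually_ge_atTop 1).and
        (ev_pow 272 (2 * b + 2) one_pos))))
  obtain ⟨X0, hX0⟩ := Filter.eventually_atTop.1 hev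
  refine ⟨D', X0, fun X hX => ?_⟩
  obtain ⟨⟨h1, h2, hP, hF, hR⟩, h3, h4, h5, h5'⟩ := hX0 X hX
  rw [Real.rpow_one] at h5'
  obtain ⟨L, hL⟩ : ∃ L : ℝ, L = Real.log X := ⟨_, rfl⟩
  have hXR : (1 : ℝ) ≤ X := by exact_mod_cast h5
  have hX0' : (0 : ℝ) < X := by linarith
  have hL8 : 270000 ≤ L := by rw [hL]; linarith
  have hLC : 4800 * C ≤ L := by rw [hL]; linarith
  have hL1 : 1 ≤ L := by linarith
  have hL0 : 0 < L := by linarith
  obtain ⟨w, hw⟩ : ∃ w : ℕ, w = wX D' X := ⟨_, rfl⟩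
  have hwle : (w : ℝ) ≤ (Real.log X) ^ D' := by
    rw [hw, wX]
    exact Nat.floor_le (by rw [← hL]; positivity)
  have hLD : L ^ 5 ≤ L ^ D' := pow_le_pow_right₀ hL1 (by omega)
  have hL5 : 8 * L ≤ L ^ 5 := by
    have h6 : L ^ 5 = L ^ 3 * (L * L) := by ring
    have h7 : (1 : ℝ) ≤ L ^ 3 := one_le_pow₀ hL1
    have h8 : 8 * L ≤ L * L := by nlinarith only [h4, hC, hL, hη, hη4]
    have h9 : 0 ≤ L * L := by positivity
    nlinarith only [h7, h8]
  have hwge : L ^ D' / 2 ≤ w := by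
    have h6 : (Real.log X) ^ D' < (w : ℝ) + 1 := by
      rw [hw, wX]
      exact Nat.lt_floor_add_one _
    rw [← hL] at h6
    have : 2 ≤ L ^ D' := by linarith
    linarith
  have hw2 : 2 ≤ w := by
    have h6 : (2 : ℝ) ≤ w := by linarith
    exact_mod_cast h6
  rw [← hw]
  refine ⟨by rw [← hL]; exact hL8, hw2, ?_, ?_, ?_, ?_, h5'⟩
  · intro θ
    rw [hw]
    exact hXC X h1 θ
  · intro n
    have h6 := f2_bound w n
    rw [abs_of_nonneg h6.1]
    refine h6.2.trans (mul_le_mul_of_nonneg_left ?_ (by norm_num))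
    exact (hRat X hR w hwle).1
  · have h6 := hXP X hP
    have h7 := hXF X hF w hwle
    calc (((Icc 1 X).filter Nat.Prime).card : ℝ) + ∑ n ∈ Icc 1 X, f2 w n ^ 2 ≤
          4 * X / Real.log X + 5 * X / Real.log X := add_le_add h6 h7
      _ = _ := by ring
  · intro n hnX hev1 hn0
    have hn2 : 2 ≤ n := by
      obtain ⟨k, hk⟩ := hev1
      omega
    have hnR : (n : ℝ) ≤ X := by exact_mod_cast hnX
    have hnR2 : (2 : ℝ) ≤ n := by exact_mod_cast hn2
    have hlogn : 0 < Real.log n := Real.log_pos (by linarith)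
    have hlognL : Real.log n ≤ L := by
      rw [hL]
      exact Real.log_le_log (by linarith) hnR
    have herr1 : |SS n - SW w n| * JJ n ≤ X / (200 * L ^ (2 * b + 2)) := by
      have h6 := hSR n hn0 w (by
        have h8 : 4 * (1 + Real.log n) ≤ 4 * (1 + L) := by linarith
        have h9 : 4 * (1 + L) ≤ L ^ 5 / 2 := by
          have h10 : (64 : ℝ) ≤ L * L := by nlinarith only [h4, hC, hL, hη, hη4]
          have h11 : L ^ 5 = (L * L) * (L * L) * L := by ring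
          have h12 : (4096 : ℝ) ≤ (L * L) * (L * L) := by nlinarith only [h10]
          nlinarith only [h12, h4, hC, hL, hη, hη4]
        linarith)
      have h7 : C * (1 + Real.log n) ^ 2 / w ≤ C * (4 * L ^ 2) / (L ^ D' / 2) := by
        have h8 : (1 + Real.log n) ^ 2 ≤ 4 * L ^ 2 := by nlinarith only [h4, hC, hL, hlogn, hlognL, hη, hη4]
        exact div_le_div₀ (by positivity) (mul_le_mul_of_nonneg_left h8 hC.le) (by positivity)
          hwge
      have h9 : JJ n ≤ 3 * X := (JJ_le n).trans (by linarith)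
      have h10 : C * (4 * L ^ 2) / (L ^ D' / 2) * (3 * X) ≤ X / (200 * L ^ (2 * b + 2)) := by
        have h11 : L ^ (2 * b + 5) ≤ L ^ D' := pow_le_pow_right₀ hL1 hD2
        have h12 : C * (4 * L ^ 2) / (L ^ D' / 2) ≤ C * (4 * L ^ 2) / (L ^ (2 * b + 5) / 2) :=
          div_le_div_of_nonneg_left (by positivity) (by positivity) (by linarith only [h11])
        have h13 : C * (4 * L ^ 2) / (L ^ (2 * b + 5) / 2) * (3 * X) =
            24 * C * X / (L ^ (2 * b + 2) * L) := by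
          rw [show 2 * b + 5 = (2 * b + 2) + 1 + 2 by ring, pow_add, pow_add]
          field_simp
          ring
        have h14 : 24 * C * X / (L ^ (2 * b + 2) * L) ≤ X / (200 * L ^ (2 * b + 2)) := by
          rw [div_le_div_iff₀ (by positivity) (by positivity)]
          have h16 : 0 ≤ (X : ℝ) * L ^ (2 * b + 2) := by positivity
          nlinarith only [h16, hLC, mul_le_mul_of_nonneg_left hLC h16]
        calc C * (4 * L ^ 2) / (L ^ D' / 2) * (3 * X)
            ≤ C * (4 * L ^ 2) / (L ^ (2 * b + 5) / 2) * (3 * X) :=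
              mul_le_mul_of_nonneg_right h12 (by positivity)
          _ ≤ _ := by rw [h13]; exact h14
      calc |SS n - SW w n| * JJ n ≤ (C * (4 * L ^ 2) / (L ^ D' / 2)) * (3 * X) :=
            mul_le_mul (h6.trans h7) h9 (JJ_nonneg n) (by positivity)
        _ ≤ _ := h10
    have herr2 : |conv2 w n - SW w n * JJ n| ≤ X / (200 * L ^ (2 * b + 2)) := by
      refine (hXM X h2 w hw2 hwle n hnX hev1 hn0).trans ?_
      rw [Real.rpow_sub hX0', Real.rpow_one]
      rw [← hL] at h3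
      exact div_le_div_of_nonneg_left hX0'.le (by positivity) h3
    have h8 : (g n : ℝ) - SS n * JJ n = ((g n : ℝ) - conv2 w n) +
        ((conv2 w n - SW w n * JJ n) - (SS n - SW w n) * JJ n) := by ring
    rw [h8]
    refine (abs_add_le _ _).trans (add_le_add le_rfl ?_)
    refine (abs_sub _ _).trans ?_
    rw [abs_mul (SS n - SW w n), abs_of_nonneg (JJ_nonneg n)]
    have h9 : X / (100 * L ^ (2 * b + 2)) = X / (200 * L ^ (2 * b + 2)) +
        X / (200 * L ^ (2 * b + 2)) := by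
      field_simp
      norm_num
    rw [← hL, h9]
    exact add_le_add herr2 herr1

end Pool.MP_dd84fd_nt.RL
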