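import Pool.Agent.Lib.MP_dd84fd_nt.RL.Phys
import Pool.Agent.Lib.MP_dd84fd_nt.RL.Evens
import Pool.Agent.Lib.MP_dd84fd_nt.RL.Params

/-!
# Random linear images: the non-exceptional linear forms
-/

set_option autoImplicit false

namespace Pool.MP_dd84fd_nt.RL

open Finset Pool.MP_dd84fd_nt.En Pool.MP_dd84fd_nt.E2 Pool.Agent.Lib.MP_dd84fd_nt.Dilates

/-- even with an error term larger than `t n / (log n)²` -/
def Bad (t : ℝ) (n : ℕ) : Prop :=
  Even n ∧ t * n / (Real.log n) ^ 2 < |(g n : ℝ) - SS n * JJ n|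

/-- even and either small or with an error term larger than `t n / (log n)²` -/
def Bad2 (z t : ℝ) (n : ℕ) : Prop :=
  Even n ∧ ((n : ℝ) < z ∨ t * n / (Real.log n) ^ 2 < |(g n : ℝ) - SS n * JJ n|)

theorem Bad_pos (t : ℝ) (n : ℕ) (hn : Bad t n) : 0 < n := by
  rcases Nat.eq_zero_or_pos n with h | h
  · exfalso
    subst h
    have h1 := hn.2
    have h2 : g 0 = 0 := by decide
    have h3 : JJ 0 = 0 := by
      unfold JJ
      rfl
    rw [h2, h3, mul_zero, Nat.cast_zero, sub_zero, abs_zero] at h1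
    simp at h1
  · exact h

variable {q : ℕ} [Fact q.Prime] {k : ℕ}

theorem bad_FF {b w : ℕ} (hG : Good b (q - 1) w) (t L X : ℝ) (hX : X = ((q - 1 : ℕ) : ℝ))
    (hL : L = Real.log X) (ht0 : 1 ≤ t * L ^ b) (ht : 0 < t) (h : ℕ)
    (hh1 : t * q / 17 ≤ h) (y : ZMod q) (hy : h ≤ y.val) (hbad : Bad t y.val) :
    t ^ 2 * X / (50 * L ^ 2) ≤ ‖FF (aa q w) y‖ := by
  have hqp : q.Prime := Fact.out
  have hn0 := Bad_pos t _ hbad
  obtain ⟨n, hn⟩ : ∃ n : ℕ, n = y.val := ⟨_, rfl⟩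
  have hnq : n < q := by rw [hn]; exact ZMod.val_lt y
  have hFF := FF_aa (q := q) w hG.w_ge (by
    intro h2
    have h3 := hbad.1
    have h4 := ZMod.val_lt y
    obtain ⟨r, hr⟩ := h3
    omega) y hbad.1
  rw [← hn] at hFF hbad hn0 hy
  have hnX : n ≤ q - 1 := by omega
  have hLge := hG.L_ge
  have hpt := hG.pt n hnX hbad.1 hn0
  have hXge := hG.X_ge
  rw [← hX] at hpt hXge hLge
  rw [← hL] at hpt hXge hLge
  have hL0 : 0 < L := by linarith only [hLge]
  have hn2 : 2 ≤ n := by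
    obtain ⟨r, hr⟩ := hbad.1
    omega
  have hnR2 : (2 : ℝ) ≤ n := by exact_mod_cast hn2
  have hnXR : (n : ℝ) ≤ X := by rw [hX]; exact_mod_cast hnX
  have hX0 : 0 < X := by linarith only [hnR2, hnXR]
  have hqX : X ≤ q := by
    rw [hX]
    exact_mod_cast Nat.sub_le q 1
  have hlogn : 0 < Real.log n := Real.log_pos (by linarith only [hnR2])
  have hlognL : Real.log n ≤ L := by
    rw [hL]
    exact Real.log_le_log (by linarith only [hnR2]) hnXR
  have hhn : (h : ℝ) ≤ n := by exact_mod_cast hy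
  obtain ⟨Y, hY⟩ : ∃ Y : ℝ, Y = t ^ 2 * X / L ^ 2 := ⟨_, rfl⟩
  have h1 : Y / 17 ≤ t * n / (Real.log n) ^ 2 := by
    have h2 : t * n / L ^ 2 ≤ t * n / (Real.log n) ^ 2 :=
      div_le_div_of_nonneg_left (by positivity) (by positivity) (pow_le_pow_left₀ hlogn.le hlognL 2)
    refine le_trans ?_ h2
    rw [hY, div_div, div_le_div_iff₀ (by positivity) (by positivity)]
    have h3 : t * X ≤ 17 * n := by nlinarith only [hh1, hhn, hqX, ht]
    have h4 : 0 ≤ t * L ^ 2 := by positivity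
    nlinarith only [h3, h4, mul_le_mul_of_nonneg_left h3 h4]
  have h5 : 1 ≤ t ^ 2 * L ^ (2 * b) := by
    have h6 : t ^ 2 * L ^ (2 * b) = (t * L ^ b) ^ 2 := by
      rw [mul_pow, ← pow_mul, mul_comm b 2]
    rw [h6]
    exact one_le_pow₀ ht0
  have h7 : X / (100 * L ^ (2 * b + 2)) ≤ Y / 100 := by
    rw [hY, div_div, div_le_div_iff₀ (by positivity) (by positivity), pow_add]
    have h8 : 0 ≤ 100 * X * L ^ 2 := by positivity
    nlinarith only [h5, h8, mul_le_mul_of_nonneg_left h5 h8]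
  have h9 : 2 ≤ Y / 136 := by
    rw [hY, div_div, le_div_iff₀ (by positivity)]
    have h10 : 272 * L ^ 2 ≤ t ^ 2 * X := by
      calc 272 * L ^ 2 ≤ (272 * L ^ 2) * (t ^ 2 * L ^ (2 * b)) :=
            le_mul_of_one_le_right (by positivity) h5
        _ = t ^ 2 * (272 * L ^ (2 * b + 2)) := by rw [pow_add]; ring
        _ ≤ t ^ 2 * X := mul_le_mul_of_nonneg_left hXge (by positivity)
    linarith only [h10]
  have h11 : |(g n : ℝ) - conv2 w n| ≤ ‖FF (aa q w) y‖ + 2 := by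
    have h12 : |(g n : ℝ) - conv2 w n| = ‖(((g n : ℝ) - conv2 w n : ℝ) : ℂ)‖ := by
      rw [Complex.norm_real, Real.norm_eq_abs]
    rw [h12]
    have h13 := norm_sub_norm_le (((g n : ℝ) - conv2 w n : ℝ) : ℂ) (FF (aa q w) y)
    rw [norm_sub_rev] at h13
    linarith only [h13, hFF]
  have h14 := hbad.2
  have h15 : t ^ 2 * X / (50 * L ^ 2) = Y / 50 := by
    rw [hY]
    field_simp
  rw [h15]
  have hY0 : 0 ≤ Y := by rw [hY]; positivity
  linarith only [h1, h11, h14, h7, h9, hpt]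

theorem core1 {b w : ℕ} (hG : Good b (q - 1) w) (t L X : ℝ) (hX : X = ((q - 1 : ℕ) : ℝ))
    (hL : L = Real.log X) (ht0 : 1 ≤ t * L ^ b) (ht : 0 < t) (ht1 : t ≤ 1) (h : ℕ)
    (hh1 : t * q / 17 ≤ h) (hh2 : (h : ℝ) ≤ t * q / 16) (hh0 : 1 ≤ h)
    (S : Finset (Fin k → ZMod q)) (l : Fin k → ZMod q)
    (h1 : VV (AI q h) S l ≤ h * t ^ 3 * (S.card : ℝ) ^ 2 / 32)
    (h2 : VV (AI q h) S ((2 : ZMod q)⁻¹ • l) ≤ h * t ^ 3 * (S.card : ℝ) ^ 2 / 32)
    (h3 : YY (aa q w) S l ≤ t * S.card * (t ^ 2 * X / (50 * L ^ 2)) ^ 2 / 4) (β : ZMod q) :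
    (({s ∈ (S : Set (Fin k → ZMod q)) | Bad2 (t * q / 17) t (β + dot l s).val} :
      Set (Fin k → ZMod q)).ncard : ℝ) ≤ t * S.card ∧
    (1 / 2 - t) * S.card ≤ ((S.filter (fun s => Even (β + dot l s).val)).card : ℝ) := by
  classical
  have hqp : q.Prime := Fact.out
  have hq0 : (0 : ℝ) < q := by exact_mod_cast hqp.pos
  have hLge := hG.L_ge
  have hXge := hG.X_ge
  have hsup0 := hG.sup
  have hl1 := hG.l1
  have hf2 := hG.f2_le
  rw [← hX] at hXge hLge hsup0 hl1 hf2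
  rw [← hL] at hXge hLge hsup0 hl1 hf2
  have hL0 : 0 < L := by linarith only [hLge]
  have hL1 : 1 ≤ L := by linarith only [hLge]
  have hX0 : 0 < X := by
    have : (0 : ℝ) < 272 * L ^ (2 * b + 2) := by positivity
    linarith only [hXge, this]
  have hhR : (1 : ℝ) ≤ h := by exact_mod_cast hh0
  have hq3 : 3 ≤ q := by
    have h4 : (16 : ℝ) ≤ q := by nlinarith only [hh2, hhR, ht1]
    have h5 : 16 ≤ q := by exact_mod_cast h4
    omega
  have h16 : 16 * h ≤ q := by
    have h4 : 16 * (h : ℝ) ≤ q := by nlinarith only [hh2, ht1]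
    exact_mod_cast h4
  obtain ⟨σ, hσ⟩ : ∃ σ : ℝ, σ = S.card := ⟨_, rfl⟩
  have hσ0 : 0 ≤ σ := by rw [hσ]; positivity
  rw [← hσ] at h1 h2 h3
  rw [← hσ]
  constructor
  · -- bad elements
    obtain ⟨c, hc⟩ : ∃ c : ℝ, c = t ^ 2 * X / (50 * L ^ 2) := ⟨_, rfl⟩
    have hc0 : 0 < c := by rw [hc]; positivity
    rw [← hc] at h3
    have hset : ({s ∈ (S : Set (Fin k → ZMod q)) | Bad2 (t * q / 17) t (β + dot l s).val} :
        Set (Fin k → ZMod q)) = (S.filter (fun s => Bad2 (t * q / 17) t (β + dot l s).val) :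
          Set (Fin k → ZMod q)) := by
      ext s
      simp
    rw [hset, Set.ncard_coe_finset]
    have hsplit : S.filter (fun s => Bad2 (t * q / 17) t (β + dot l s).val) ⊆
        S.filter (fun s => (β + dot l s).val < h) ∪
        S.filter (fun s => c ≤ ‖FF (aa q w) (β + dot l s)‖) := by
      intro s hs
      rw [mem_filter] at hs
      rw [mem_union, mem_filter, mem_filter]
      by_cases h5 : (β + dot l s).val < h
      · exact Or.inl ⟨hs.1, h5⟩
      · refine Or.inr ⟨hs.1, ?_⟩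
        rw [hc]
        refine bad_FF hG t L X hX hL ht0 ht h hh1 _ (not_lt.1 h5) ⟨hs.2.1, ?_⟩
        rcases hs.2.2 with h6 | h6
        · exfalso
          have h7 : (h : ℝ) ≤ ((β + dot l s).val : ℝ) := by exact_mod_cast not_lt.1 h5
          linarith only [h6, h7, hh1]
        · exact h6
    have h6 : ((S.filter (fun s => Bad2 (t * q / 17) t (β + dot l s).val)).card : ℝ) ≤
        ((S.filter (fun s => (β + dot l s).val < h)).card : ℝ) +
        ((S.filter (fun s => c ≤ ‖FF (aa q w) (β + dot l s)‖)).card : ℝ) := by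
      exact_mod_cast (card_le_card hsplit).trans (card_union_le _ _)
    have h7 := small_count h hh0 (by omega) S l β (t * σ / 8) (by positivity) (by
      refine h1.trans ?_
      have h8 : 2 * (h : ℝ) * (t * σ / 8) ^ 2 = h * t ^ 2 * σ ^ 2 / 32 := by ring
      rw [h8]
      have h9 : t ^ 3 ≤ t ^ 2 := pow_le_pow_of_le_one ht.le ht1 (by norm_num)
      have h10 : 0 ≤ (h : ℝ) * σ ^ 2 := by positivity
      nlinarith only [h10, h9, mul_le_mul_of_nonneg_left h9 h10])
    rw [← hσ] at h7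
    have h8 : 4 * σ * h / q ≤ t * σ / 4 := by
      rw [div_le_iff₀ hq0]
      nlinarith only [hh1, hh2, hσ]
    have h9 := second_moment (aa q w) S l β
    rw [← hσ] at h9
    have h10 : ((S.filter (fun s => c ≤ ‖FF (aa q w) (β + dot l s)‖)).card : ℝ) * c ^ 2 ≤
        ∑ s ∈ S, ‖FF (aa q w) (β + dot l s)‖ ^ 2 := by
      calc ((S.filter (fun s => c ≤ ‖FF (aa q w) (β + dot l s)‖)).card : ℝ) * c ^ 2 =
            ∑ s ∈ S.filter (fun s => c ≤ ‖FF (aa q w) (β + dot l s)‖), c ^ 2 := by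
              rw [Finset.sum_const, nsmul_eq_mul]
        _ ≤ ∑ s ∈ S.filter (fun s => c ≤ ‖FF (aa q w) (β + dot l s)‖),
              ‖FF (aa q w) (β + dot l s)‖ ^ 2 :=
              Finset.sum_le_sum fun s hs => pow_le_pow_left₀ hc0.le (mem_filter.1 hs).2 2
        _ ≤ _ := Finset.sum_le_sum_of_subset_of_nonneg (filter_subset _ _)
              (fun _ _ _ => by positivity)
    -- the diagonal
    have h11 : ∑ j, ‖aa q w j‖ ^ 2 ≤ t * c ^ 2 / 4 := by
      have h12 : ∀ j, ‖aa q w j‖ ≤ X / L ^ (5 * b + 5) * (1 + 2 * L) := fun j =>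
        aa_sup w _ _ hsup0 hf2 j
      have h13 : ∑ j, ‖aa q w j‖ ≤ 9 * X / L := (aa_l1 w).trans hl1
      have h14 : ∑ j, ‖aa q w j‖ ^ 2 ≤ (X / L ^ (5 * b + 5) * (1 + 2 * L)) * (9 * X / L) := by
        calc ∑ j, ‖aa q w j‖ ^ 2 ≤ ∑ j, (X / L ^ (5 * b + 5) * (1 + 2 * L)) * ‖aa q w j‖ := by
              refine Finset.sum_le_sum fun j _ => ?_
              rw [sq]
              exact mul_le_mul_of_nonneg_right (h12 j) (norm_nonneg _)
          _ = (X / L ^ (5 * b + 5) * (1 + 2 * L)) * ∑ j, ‖aa q w j‖ := by rw [Finset.mul_sum]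
          _ ≤ _ := mul_le_mul_of_nonneg_left h13 (by positivity)
      have h15 : 1 ≤ t ^ 5 * L ^ (5 * b) := by
        have h16 : t ^ 5 * L ^ (5 * b) = (t * L ^ b) ^ 5 := by
          rw [mul_pow, ← pow_mul, mul_comm b 5]
        rw [h16]
        exact one_le_pow₀ ht0
      have h17 : (X / L ^ (5 * b + 5) * (1 + 2 * L)) * (9 * X / L) ≤
          27 * X ^ 2 / L ^ (5 * b + 5) := by
        have h18 : (X / L ^ (5 * b + 5) * (1 + 2 * L)) * (9 * X / L) =
            (9 * X ^ 2 * (1 + 2 * L) / L) / L ^ (5 * b + 5) := by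
          field_simp
        rw [h18]
        refine div_le_div_of_nonneg_right ?_ (by positivity)
        rw [div_le_iff₀ hL0]
        nlinarith only [hL1, sq_nonneg X, mul_nonneg (sq_nonneg X) hL0.le,
          mul_le_mul_of_nonneg_left hL1 (sq_nonneg X)]
      refine h14.trans (h17.trans ?_)
      have h19 : t * c ^ 2 / 4 = t ^ 5 * X ^ 2 / (10000 * L ^ 4) := by
        rw [hc]
        field_simp
        ring
      rw [h19, div_le_div_iff₀ (by positivity) (by positivity)]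
      have h20 : 27 * (10000 * L ^ 4) ≤ L ^ 5 := by
        have : L ^ 5 = L * L ^ 4 := by ring
        rw [this]
        nlinarith only [hL0, hLge, pow_pos hL0 4]
      have h21 : 27 * (10000 * L ^ 4) ≤ t ^ 5 * L ^ (5 * b + 5) := by
        calc 27 * (10000 * L ^ 4) ≤ L ^ 5 := h20
          _ ≤ L ^ 5 * (t ^ 5 * L ^ (5 * b)) := le_mul_of_one_le_right (by positivity) h15
          _ = _ := by rw [pow_add]; ring
      nlinarith only [h21, mul_le_mul_of_nonneg_left h21 (sq_nonneg X)]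
    have h22 : ((S.filter (fun s => c ≤ ‖FF (aa q w) (β + dot l s)‖)).card : ℝ) * c ^ 2 ≤
        (t * σ / 2) * c ^ 2 := by
      refine h10.trans (h9.trans ?_)
      have h23 := mul_le_mul_of_nonneg_left h11 hσ0
      linarith only [h23, h3]
    have h24 := le_of_mul_le_mul_right h22 (by positivity)
    linarith only [h24, h6, h7, h8]
  · -- even elements
    obtain ⟨m, hm⟩ : ∃ m : ℕ, m = (q + 3) / 2 - 2 * h := ⟨_, rfl⟩
    have hmq : (m : ℝ) ≤ q := by
      have : m ≤ q := by omega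
      exact_mod_cast this
    have hm2 : (q : ℝ) / 2 - 2 * h ≤ m := by
      have h4 : q ≤ 2 * m + 4 * h := by omega
      have h5 : (q : ℝ) ≤ 2 * m + 4 * h := by exact_mod_cast h4
      linarith only [h5]
    have h4 := even_count hq3 m h hh0 (by omega) S l β (t * σ / 2) (by positivity) (by
      have h5 : (m : ℝ) * VV (AI q h) S ((2 : ZMod q)⁻¹ • l) ≤
          q * (h * t ^ 3 * σ ^ 2 / 32) := by
        refine mul_le_mul hmq h2 ?_ hq0.le
        exact Finset.sum_nonneg fun _ _ => sq_nonneg _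
      refine h5.trans ?_
      have h6 : (2 * (h : ℝ) * (t * σ / 2)) ^ 2 = h * t ^ 2 * σ ^ 2 * h := by ring
      have h7 : (q : ℝ) * (h * t ^ 3 * σ ^ 2 / 32) = h * t ^ 2 * σ ^ 2 * (t * q / 32) := by ring
      rw [h6, h7]
      refine mul_le_mul_of_nonneg_left ?_ (by positivity)
      have : 0 ≤ t * q := by positivity
      linarith only [hh1, hhR])
    rw [← hσ] at h4
    refine le_trans ?_ h4
    have h5 : σ * (1 / 2 - t / 8) ≤ σ * m / q := by
      rw [le_div_iff₀ hq0, mul_assoc]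
      refine mul_le_mul_of_nonneg_left ?_ hσ0
      nlinarith only [hh2, hm2]
    nlinarith only [h5, ht, hσ]

end Pool.MP_dd84fd_nt.RL
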