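import Pool.Agent.Lib.MP_dd84fd_nt.RL.Moment
import Pool.Agent.Lib.MP_dd84fd_nt.En.Defs

/-!
# Random linear images: Fourier analysis modulo `q`
-/

set_option autoImplicit false

namespace Pool.MP_dd84fd_nt.RL

open Finset Pool.Agent.Lib.MP_dd84fd_nt.Fourier

variable {q : ℕ} [Fact q.Prime]

/-- Fourier transform modulo `q` -/
noncomputable def hat (f : ZMod q → ℂ) (j : ZMod q) : ℂ :=
  ∑ y, f y * (ZMod.stdAddChar (j * y) : ℂ)

theorem hat_parseval (f : ZMod q → ℂ) : ∑ j, ‖hat f j‖ ^ 2 = q * ∑ y, ‖f y‖ ^ 2 := by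
  classical
  have h1 : ∀ j : ZMod q, ((‖hat f j‖ ^ 2 : ℝ) : ℂ) =
      ∑ y, ∑ z, f y * (starRingEnd ℂ) (f z) * (ZMod.stdAddChar (j * (y - z)) : ℂ) := by
    intro j
    rw [← Complex.normSq_eq_norm_sq, ← Complex.mul_conj]
    unfold hat
    rw [map_sum, sum_mul_sum]
    refine sum_congr rfl fun y _ => sum_congr rfl fun z _ => ?_
    rw [map_mul (starRingEnd ℂ), conj_e, show (ZMod.stdAddChar (j * (y - z)) : ℂ) =
      ZMod.stdAddChar (j * y) * ZMod.stdAddChar (-(j * z)) by
        rw [← AddChar.map_add_eq_mul]; congr 1; ring]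
    ring
  have h2 : ((∑ j, ‖hat f j‖ ^ 2 : ℝ) : ℂ) = (q : ℂ) * ((∑ y, ‖f y‖ ^ 2 : ℝ) : ℂ) := by
    rw [Complex.ofReal_sum, Finset.sum_congr rfl fun j _ => h1 j, Finset.sum_comm,
      Complex.ofReal_sum, Finset.mul_sum]
    refine Finset.sum_congr rfl fun y _ => ?_
    rw [Finset.sum_comm]
    have h3 : ∀ z : ZMod q, ∑ j : ZMod q,
        f y * (starRingEnd ℂ) (f z) * (ZMod.stdAddChar (j * (y - z)) : ℂ) =
        if y = z then (q : ℂ) * ((‖f y‖ ^ 2 : ℝ) : ℂ) else 0 := by
      intro z
      rw [← Finset.mul_sum, sum_e]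
      by_cases h : y = z
      · rw [if_pos (sub_eq_zero.2 h), if_pos h, ← h, Complex.mul_conj,
          Complex.normSq_eq_norm_sq]
        ring
      · rw [if_neg (fun h' => h (sub_eq_zero.1 h')), if_neg h, mul_zero]
    rw [Finset.sum_congr rfl fun z _ => h3 z]
    simp
  exact_mod_cast h2

/-- inversion for the convolution square -/
theorem hat_conv (f : ZMod q → ℂ) (y : ZMod q) :
    ∑ j, hat f j ^ 2 * (ZMod.stdAddChar (-(j * y)) : ℂ) = q * ∑ z, f z * f (y - z) := by
  classical
  have h1 : ∀ j : ZMod q, hat f j ^ 2 * (ZMod.stdAddChar (-(j * y)) : ℂ) =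
      ∑ u, ∑ v, f u * f v * (ZMod.stdAddChar (j * (u + v - y)) : ℂ) := by
    intro j
    unfold hat
    rw [sq, sum_mul_sum, Finset.sum_mul]
    refine sum_congr rfl fun u _ => ?_
    rw [Finset.sum_mul]
    refine sum_congr rfl fun v _ => ?_
    rw [show (ZMod.stdAddChar (j * (u + v - y)) : ℂ) =
      ZMod.stdAddChar (j * u) * ZMod.stdAddChar (j * v) * ZMod.stdAddChar (-(j * y)) by
        rw [← AddChar.map_add_eq_mul, ← AddChar.map_add_eq_mul]; congr 1; ring]
    ring
  rw [Finset.sum_congr rfl fun j _ => h1 j, Finset.sum_comm, Finset.mul_sum]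
  refine Finset.sum_congr rfl fun u _ => ?_
  rw [Finset.sum_comm, Finset.sum_eq_single (y - u)]
  · rw [← Finset.mul_sum, sum_e, if_pos (by ring)]
    ring
  · intro v _ hv
    rw [← Finset.mul_sum, sum_e, if_neg, mul_zero]
    intro h
    apply hv
    rw [eq_sub_iff_add_eq]
    linear_combination h
  · intro h
    exact absurd (mem_univ _) h

theorem hat_norm_le (f : ZMod q → ℂ) (j : ZMod q) : ‖hat f j‖ ≤ ∑ y, ‖f y‖ := by
  unfold hat
  refine (norm_sum_le _ _).trans (Finset.sum_le_sum fun y _ => ?_)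
  rw [norm_mul, norm_e, mul_one]

theorem hat_sub (f g : ZMod q → ℂ) (j : ZMod q) :
    hat (fun y => f y - g y) j = hat f j - hat g j := by
  unfold hat
  rw [← Finset.sum_sub_distrib]
  exact Finset.sum_congr rfl fun y _ => by ring

theorem hat_add (f g : ZMod q → ℂ) (j : ZMod q) :
    hat (fun y => f y + g y) j = hat f j + hat g j := by
  unfold hat
  rw [← Finset.sum_add_distrib]
  exact Finset.sum_congr rfl fun y _ => by ring

/-- sums over residues are sums over `0, …, q-1` -/
theorem sum_val {M : Type*} [AddCommMonoid M] (F : ℕ → M) :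
    ∑ y : ZMod q, F y.val = ∑ n ∈ range q, F n := by
  classical
  have hq : 0 < q := (Fact.out : q.Prime).pos
  refine Finset.sum_bij (fun y _ => y.val) (fun y _ => mem_range.2 (ZMod.val_lt y))
    (fun y _ z _ h => ZMod.val_injective q h) (fun n hn => ?_) (fun y _ => rfl)
  exact ⟨(n : ZMod q), mem_univ _, ZMod.val_cast_of_lt (mem_range.1 hn)⟩

theorem sum_val' {M : Type*} [AddCommMonoid M] (F : ℕ → M) (h0 : F 0 = 0) :
    ∑ y : ZMod q, F y.val = ∑ n ∈ Icc 1 (q - 1), F n := by
  rw [sum_val]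
  have hq : 0 < q := (Fact.out : q.Prime).pos
  have h1 : range q = insert 0 (Icc 1 (q - 1)) := by
    ext n
    simp only [mem_range, mem_insert, mem_Icc]
    omega
  rw [h1, Finset.sum_insert (by simp), h0, zero_add]

/-- the values of the standard character -/
theorem char_ee (j : ZMod q) (n : ℕ) :
    (ZMod.stdAddChar (j * (n : ZMod q)) : ℂ) =
      Pool.MP_67663b_nt.Odd.ee ((n : ℝ) * ((j.val : ℝ) / q)) := by
  have h1 : j * (n : ZMod q) = ((j.val * n : ℕ) : ZMod q) := by
    push_cast
    rw [ZMod.natCast_zmod_val]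
  rw [h1, ← Int.cast_natCast, ZMod.stdAddChar_coe]
  unfold Pool.MP_67663b_nt.Odd.ee
  congr 1
  push_cast
  ring

/-- the transform of a function of the least residue -/
theorem hat_val (F : ℕ → ℂ) (h0 : F 0 = 0) (j : ZMod q) :
    hat (fun y => F y.val) j =
      ∑ n ∈ Icc 1 (q - 1), F n * Pool.MP_67663b_nt.Odd.ee ((n : ℝ) * ((j.val : ℝ) / q)) := by
  unfold hat
  rw [← sum_val' (q := q) (fun n => F n * Pool.MP_67663b_nt.Odd.ee ((n : ℝ) * ((j.val : ℝ) / q)))
    (by rw [h0, zero_mul])]
  refine Finset.sum_congr rfl fun y _ => ?_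
  rw [← char_ee, ZMod.natCast_zmod_val]

/-- convolution modulo `q` of a function of the least residue -/
theorem conv_val (F : ℕ → ℂ) (y : ZMod q) :
    ∑ z : ZMod q, F z.val * F (y - z).val =
      ∑ u ∈ range (y.val + 1), F u * F (y.val - u) +
        ∑ u ∈ Ico (y.val + 1) q, F u * F (y.val + q - u) := by
  classical
  have hq : 0 < q := (Fact.out : q.Prime).pos
  have hy : y.val < q := ZMod.val_lt y
  have h1 : ∀ z : ZMod q, F z.val * F (y - z).val =
      (fun u => F u * F (if u ≤ y.val then y.val - u else y.val + q - u)) z.val := by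
    intro z
    have h2 : (y - z).val = if z.val ≤ y.val then y.val - z.val else y.val + q - z.val := by
      have hz : z.val < q := ZMod.val_lt z
      split_ifs with h
      · exact ZMod.val_sub h
      · have h3 : y - z = ((y.val + q - z.val : ℕ) : ZMod q) := by
          rw [Nat.cast_sub (by omega)]
          push_cast
          rw [ZMod.natCast_zmod_val, ZMod.natCast_zmod_val, ZMod.natCast_self, add_zero]
        rw [h3]
        exact ZMod.val_cast_of_lt (by omega)
    rw [h2]
  rw [Finset.sum_congr rfl fun z _ => h1 z,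
    sum_val (fun u => F u * F (if u ≤ y.val then y.val - u else y.val + q - u))]
  have h3 : range q = range (y.val + 1) ∪ Ico (y.val + 1) q := by
    ext u
    simp only [mem_range, mem_union, mem_Ico]
    omega
  have h4 : Disjoint (range (y.val + 1)) (Ico (y.val + 1) q) := by
    rw [Finset.disjoint_left]
    intro u hu hu'
    simp only [mem_range, mem_Ico] at hu hu'
    omega
  rw [h3, Finset.sum_union h4]
  congr 1
  · refine Finset.sum_congr rfl fun u hu => ?_
    rw [mem_range] at hu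
    rw [if_pos (by omega)]
  · refine Finset.sum_congr rfl fun u hu => ?_
    rw [mem_Ico] at hu
    rw [if_neg (by omega)]

end Pool.MP_dd84fd_nt.RL
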