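import Pool.Agent.Lib.MP_dd84fd_nt.RL.Core

/-!
# Random linear images: the theorem
-/

set_option autoImplicit false

namespace Pool.MP_dd84fd_nt.RL

open Finset Pool.MP_dd84fd_nt.En Pool.MP_dd84fd_nt.E2 Pool.Agent.Lib.MP_dd84fd_nt.Dilates

variable {q : ℕ} [Fact q.Prime] {k : ℕ}

theorem few_YY (a : ZMod q → ℂ) (S : Finset (Fin k → ZMod q)) (lam : ℝ) (hlam : 0 < lam) :
    ((univ.filter (fun l : Fin k → ZMod q => lam < YY a S l)).card : ℝ) * lam ^ 2 ≤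
      (∑ j, ‖a j‖) ^ 4 * ((q : ℝ) ^ k * S.card) := by
  classical
  refine le_trans ?_ (sum_YY a S)
  calc ((univ.filter (fun l : Fin k → ZMod q => lam < YY a S l)).card : ℝ) * lam ^ 2 =
        ∑ l ∈ univ.filter (fun l : Fin k → ZMod q => lam < YY a S l), lam ^ 2 := by
          rw [Finset.sum_const, nsmul_eq_mul]
    _ ≤ ∑ l ∈ univ.filter (fun l : Fin k → ZMod q => lam < YY a S l), YY a S l ^ 2 :=
          Finset.sum_le_sum fun l hl => pow_le_pow_left₀ hlam.le (mem_filter.1 hl).2.le 2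
    _ ≤ _ := Finset.sum_le_univ_sum_of_nonneg (fun l => sq_nonneg _)

/-- the exceptional linear forms, for fixed `q` -/
theorem core2 {b w : ℕ} (hG : Good b (q - 1) w) (t L X : ℝ) (hX : X = ((q - 1 : ℕ) : ℝ))
    (hL : L = Real.log X) (ht0 : 1 ≤ t * L ^ b) (ht : 0 < t) (ht1 : t ≤ 1)
    (S : Finset (Fin k → ZMod q)) (hS : S.Nonempty) :
    ({l : Fin k → ZMod q | ∃ β : ZMod q,
      t * S.card < (({s ∈ (S : Set (Fin k → ZMod q)) | Bad2 (t * q / 17) t (β + dot l s).val} :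
        Set (Fin k → ZMod q)).ncard : ℝ) ∨
      ((S.filter (fun s => Even (β + dot l s).val)).card : ℝ) < (1 / 2 - t) * S.card}.ncard : ℝ) *
      (t ^ 10 * S.card) ≤ (16 * 9 ^ 4 * 50 ^ 4 + 128) * L ^ 4 * (q : ℝ) ^ k := by
  classical
  have hqp : q.Prime := Fact.out
  have hq0 : (0 : ℝ) < q := by exact_mod_cast hqp.pos
  have hLge := hG.L_ge
  have hXge := hG.X_ge
  have hl1 := hG.l1
  rw [← hX] at hXge hLge hl1
  rw [← hL] at hXge hLge hl1
  have hL0 : 0 < L := by linarith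
  have hL1 : 1 ≤ L := by linarith
  have hX0 : 0 < X := by
    have : (0 : ℝ) < 272 * L ^ (2 * b + 2) := by positivity
    linarith
  have hqX : X ≤ q := by
    rw [hX]
    exact_mod_cast Nat.sub_le q 1
  -- `t q` is large
  have htq : 272 ≤ t * q := by
    have h1 : L ^ b ≤ L ^ (2 * b + 2) := pow_le_pow_right₀ hL1 (by omega)
    have h2 : 272 * L ^ b ≤ q := by linarith
    calc (272 : ℝ) ≤ 272 * (t * L ^ b) := by linarith
      _ = t * (272 * L ^ b) := by ring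
      _ ≤ t * q := mul_le_mul_of_nonneg_left h2 ht.le
  obtain ⟨h, hh⟩ : ∃ h : ℕ, h = ⌊t * q / 16⌋₊ := ⟨_, rfl⟩
  have hh2 : (h : ℝ) ≤ t * q / 16 := by
    rw [hh]
    exact Nat.floor_le (by positivity)
  have hh1 : t * q / 17 ≤ h := by
    have h1 : t * q / 16 < (h : ℝ) + 1 := by
      rw [hh]
      exact Nat.lt_floor_add_one _
    linarith
  have hh0 : 1 ≤ h := by
    have h1 : (1 : ℝ) ≤ h := by linarith
    exact_mod_cast h1
  have hhR : (1 : ℝ) ≤ h := by exact_mod_cast hh0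
  have h16 : 16 * h ≤ q := by
    have h4 : 16 * (h : ℝ) ≤ q := by nlinarith only [hh2, ht1]
    exact_mod_cast h4
  have hq2 : q ≠ 2 := by omega
  obtain ⟨σ, hσ⟩ : ∃ σ : ℝ, σ = S.card := ⟨_, rfl⟩
  have hσ0 : 0 < σ := by
    rw [hσ]
    exact_mod_cast hS.card_pos
  obtain ⟨V0, hV0⟩ : ∃ V0 : ℝ, V0 = h * t ^ 3 * σ ^ 2 / 32 := ⟨_, rfl⟩
  obtain ⟨lam, hlam⟩ : ∃ lam : ℝ, lam = t * σ * (t ^ 2 * X / (50 * L ^ 2)) ^ 2 / 4 := ⟨_, rfl⟩
  have hV0' : 0 < V0 := by rw [hV0]; positivity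
  have hlam' : 0 < lam := by rw [hlam]; positivity
  obtain ⟨E1, hE1⟩ : ∃ E : Finset (Fin k → ZMod q), E = univ.filter (fun l : Fin k → ZMod q =>
    V0 < VV (AI q h) S l) := ⟨_, rfl⟩
  obtain ⟨E2, hE2⟩ : ∃ E : Finset (Fin k → ZMod q), E = univ.filter (fun l : Fin k → ZMod q =>
    V0 < VV (AI q h) S ((2 : ZMod q)⁻¹ • l)) := ⟨_, rfl⟩
  obtain ⟨E3, hE3⟩ : ∃ E : Finset (Fin k → ZMod q), E = univ.filter (fun l : Fin k → ZMod q =>
    lam < YY (aa q w) S l) := ⟨_, rfl⟩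
  have hsub : {l : Fin k → ZMod q | ∃ β : ZMod q,
      t * S.card < (({s ∈ (S : Set (Fin k → ZMod q)) | Bad2 (t * q / 17) t (β + dot l s).val} :
        Set (Fin k → ZMod q)).ncard : ℝ) ∨
      ((S.filter (fun s => Even (β + dot l s).val)).card : ℝ) < (1 / 2 - t) * S.card} ⊆
      ((E1 ∪ E2 ∪ E3 : Finset (Fin k → ZMod q)) : Set (Fin k → ZMod q)) := by
    intro l hl
    obtain ⟨β, hβ⟩ := hl
    by_contra hcon
    rw [Finset.mem_coe, mem_union, mem_union, hE1, hE2, hE3] at hcon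
    simp only [mem_filter, mem_univ, true_and, not_or, not_lt] at hcon
    obtain ⟨⟨hc1, hc2⟩, hc3⟩ := hcon
    rw [hV0, hσ] at hc1 hc2
    rw [hlam, hσ] at hc3
    have h5 := core1 hG t L X hX hL ht0 ht ht1 h hh1 hh2 hh0 S l hc1 hc2 hc3 β
    rcases hβ with hβ | hβ
    · exact absurd hβ (not_lt.2 h5.1)
    · exact absurd hβ (not_lt.2 h5.2)
  have hle := Set.ncard_le_ncard hsub (Finset.finite_toSet _)
  rw [Set.ncard_coe_finset] at hle
  have hle2 : ({l : Fin k → ZMod q | ∃ β : ZMod q,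
      t * S.card < (({s ∈ (S : Set (Fin k → ZMod q)) | Bad2 (t * q / 17) t (β + dot l s).val} :
        Set (Fin k → ZMod q)).ncard : ℝ) ∨
      ((S.filter (fun s => Even (β + dot l s).val)).card : ℝ) < (1 / 2 - t) * S.card}.ncard : ℝ) ≤
      (E1.card : ℝ) + E2.card + E3.card := by
    have h5 := (card_union_le (E1 ∪ E2) E3).trans
      (Nat.add_le_add_right (card_union_le E1 E2) _)
    exact_mod_cast hle.trans h5
  have h10 : t ^ 10 ≤ t ^ 3 := pow_le_pow_of_le_one ht.le ht1 (by norm_num)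
  have hQ : 0 < (q : ℝ) ^ k := by positivity
  have hE1' : (E1.card : ℝ) * (t ^ 10 * σ) ≤ 64 * (q : ℝ) ^ k := by
    have h5 := few_VV h (by omega) S V0 hV0'
    rw [← hE1, ← hσ] at h5
    have h6 : ((E1.card : ℝ) * (t ^ 3 * σ)) * (h * σ / 32) ≤
        (64 * (q : ℝ) ^ k) * (h * σ / 32) := by
      calc ((E1.card : ℝ) * (t ^ 3 * σ)) * (h * σ / 32) = (E1.card : ℝ) * V0 := by
            rw [hV0]; ring
        _ ≤ _ := h5
        _ = _ := by ring
    have h7 := le_of_mul_le_mul_right h6 (by positivity)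
    refine le_trans ?_ h7
    exact mul_le_mul_of_nonneg_left (mul_le_mul_of_nonneg_right h10 hσ0.le) (by (clear * -; positivity))
  have hE2' : (E2.card : ℝ) * (t ^ 10 * σ) ≤ 64 * (q : ℝ) ^ k := by
    have h5 := few_VV2 hq2 h (by omega) S V0 hV0'
    rw [← hE2, ← hσ] at h5
    have h6 : ((E2.card : ℝ) * (t ^ 3 * σ)) * (h * σ / 32) ≤
        (64 * (q : ℝ) ^ k) * (h * σ / 32) := by
      calc ((E2.card : ℝ) * (t ^ 3 * σ)) * (h * σ / 32) = (E2.card : ℝ) * V0 := by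
            rw [hV0]; ring
        _ ≤ _ := h5
        _ = _ := by ring
    have h7 := le_of_mul_le_mul_right h6 (by positivity)
    refine le_trans ?_ h7
    exact mul_le_mul_of_nonneg_left (mul_le_mul_of_nonneg_right h10 hσ0.le) (by (clear * -; positivity))
  have hE3' : (E3.card : ℝ) * (t ^ 10 * σ) ≤ 16 * 9 ^ 4 * 50 ^ 4 * L ^ 4 * (q : ℝ) ^ k := by
    have h5 := few_YY (aa q w) S lam hlam'
    rw [← hE3, ← hσ] at h5
    have h6 : (∑ j, ‖aa q w j‖) ^ 4 ≤ (9 * X / L) ^ 4 :=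
      pow_le_pow_left₀ (Finset.sum_nonneg fun _ _ => norm_nonneg _) ((aa_l1 w).trans hl1) 4
    have h7 : ((E3.card : ℝ) * (t ^ 10 * σ)) * (σ * X ^ 4 / (16 * 50 ^ 4 * L ^ 8)) ≤
        (16 * 9 ^ 4 * 50 ^ 4 * L ^ 4 * (q : ℝ) ^ k) * (σ * X ^ 4 / (16 * 50 ^ 4 * L ^ 8)) := by
      calc ((E3.card : ℝ) * (t ^ 10 * σ)) * (σ * X ^ 4 / (16 * 50 ^ 4 * L ^ 8)) =
            (E3.card : ℝ) * lam ^ 2 := by
            rw [hlam]
            field_simp
            ring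
        _ ≤ _ := h5
        _ ≤ (9 * X / L) ^ 4 * ((q : ℝ) ^ k * σ) := mul_le_mul_of_nonneg_right h6 (by positivity)
        _ = _ := by
            field_simp
    exact le_of_mul_le_mul_right h7 (by positivity)
  rw [← hσ] at hle2 ⊢
  refine (mul_le_mul_of_nonneg_right hle2 (by positivity)).trans ?_
  have hL4 : 1 ≤ L ^ 4 := one_le_pow₀ hL1
  have h8 : 128 * (q : ℝ) ^ k ≤ 128 * L ^ 4 * (q : ℝ) ^ k := by nlinarith only [hL4, hQ]
  calc ((E1.card : ℝ) + E2.card + E3.card) * (t ^ 10 * σ) =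
        (E1.card : ℝ) * (t ^ 10 * σ) + (E2.card : ℝ) * (t ^ 10 * σ) +
          (E3.card : ℝ) * (t ^ 10 * σ) := by ring
    _ ≤ 64 * (q : ℝ) ^ k + 64 * (q : ℝ) ^ k + 16 * 9 ^ 4 * 50 ^ 4 * L ^ 4 * (q : ℝ) ^ k :=
        add_le_add (add_le_add hE1' hE2') hE3'
    _ ≤ _ := by linarith only [h8]

end Pool.MP_dd84fd_nt.RL
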