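import Pool.Agent.Lib.MP_dd84fd_nt.Dilates
import Pool.Agent.Lib.MP_dd84fd_nt.Fourier

/-!
# Random linear images: the second moment of a function with small Fourier norm
-/

set_option autoImplicit false

namespace Pool.MP_dd84fd_nt.RL

open Finset Pool.Agent.Lib.MP_dd84fd_nt.Dilates Pool.Agent.Lib.MP_dd84fd_nt.Fourier

variable {q : ℕ} [Fact q.Prime] {k : ℕ}

/-- exponential sum over the image of `S` under the linear form `l` -/
noncomputable def T (S : Finset (Fin k → ZMod q)) (l : Fin k → ZMod q) (d : ZMod q) : ℂ :=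
  ∑ s ∈ S, (ZMod.stdAddChar (d * dot l s) : ℂ)

/-- character sum over linear forms -/
theorem sum_char (d : ZMod q) (hd : d ≠ 0) (u : Fin k → ZMod q) (hu : u ≠ 0) :
    ∑ l : Fin k → ZMod q, (ZMod.stdAddChar (d * dot l u) : ℂ) = 0 := by
  classical
  have hq : (q : ℂ) ≠ 0 := by exact_mod_cast (Fact.out : q.Prime).ne_zero
  have h1 : ∑ l : Fin k → ZMod q, (ZMod.stdAddChar (d * dot l u) : ℂ) =
      ∑ z : ZMod q, ((univ.filter (fun l : Fin k → ZMod q => dot l u = z)).card : ℂ) *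
        (ZMod.stdAddChar (z * d) : ℂ) := by
    rw [← Finset.sum_fiberwise (s := univ) (g := fun l : Fin k → ZMod q => dot l u)]
    refine Finset.sum_congr rfl fun z _ => ?_
    rw [Finset.sum_congr rfl (g := fun _ => (ZMod.stdAddChar (z * d) : ℂ)) (fun l hl => by
      rw [(mem_filter.1 hl).2, mul_comm]), Finset.sum_const, nsmul_eq_mul]
  have h2 : (q : ℂ) * ∑ l : Fin k → ZMod q, (ZMod.stdAddChar (d * dot l u) : ℂ) = 0 := by
    rw [h1, Finset.mul_sum]
    have h3 : ∀ z : ZMod q, (q : ℂ) *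
        (((univ.filter (fun l : Fin k → ZMod q => dot l u = z)).card : ℂ) *
        (ZMod.stdAddChar (z * d) : ℂ)) = (q : ℂ) ^ k * (ZMod.stdAddChar (z * d) : ℂ) := by
      intro z
      have h4 := fiber u hu z
      have h5 : (q : ℂ) * ((univ.filter (fun l : Fin k → ZMod q => dot l u = z)).card : ℂ) =
          (q : ℂ) ^ k := by
        exact_mod_cast h4
      rw [← mul_assoc, h5]
    rw [Finset.sum_congr rfl (fun z _ => h3 z), ← Finset.mul_sum, sum_e, if_neg hd, mul_zero]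
  exact (mul_eq_zero.1 h2).resolve_left hq

theorem norm_sq_T (S : Finset (Fin k → ZMod q)) (l : Fin k → ZMod q) (d : ZMod q) :
    ((‖T S l d‖ ^ 2 : ℝ) : ℂ) =
      ∑ s ∈ S, ∑ t ∈ S, (ZMod.stdAddChar (d * dot l (s - t)) : ℂ) := by
  rw [← Complex.normSq_eq_norm_sq, ← Complex.mul_conj]
  unfold T
  rw [map_sum, sum_mul_sum]
  refine sum_congr rfl fun a _ => sum_congr rfl fun b _ => ?_
  rw [conj_e, ← AddChar.map_add_eq_mul, dot_sub]
  congr 1
  ring

theorem sum_T (S : Finset (Fin k → ZMod q)) (d : ZMod q) (hd : d ≠ 0) :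
    ∑ l, ‖T S l d‖ ^ 2 = (q : ℝ) ^ k * S.card := by
  classical
  have h1 : ((∑ l, ‖T S l d‖ ^ 2 : ℝ) : ℂ) = (q : ℂ) ^ k * S.card := by
    rw [Complex.ofReal_sum, Finset.sum_congr rfl fun l _ => norm_sq_T S l d, Finset.sum_comm]
    have h2 : ∀ s ∈ S, ∑ l : Fin k → ZMod q, ∑ t ∈ S,
        (ZMod.stdAddChar (d * dot l (s - t)) : ℂ) = (q : ℂ) ^ k := by
      intro s hs
      rw [Finset.sum_comm, Finset.sum_eq_single s]
      · have h3 : ∀ l : Fin k → ZMod q, (ZMod.stdAddChar (d * dot l (s - s)) : ℂ) = 1 := by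
          intro l
          rw [show d * dot l (s - s) = 0 by simp [dot], AddChar.map_zero_eq_one]
        rw [Finset.sum_congr rfl (fun l _ => h3 l), Finset.sum_const, Finset.card_univ,
          Pool.Agent.Lib.MP_dd84fd_nt.Dilates.card_pi, nsmul_eq_mul, mul_one]
        push_cast
        rfl
      · intro t _ hts
        exact sum_char d hd (s - t) (sub_ne_zero.2 (Ne.symm hts))
      · intro h
        exact absurd hs h
    rw [Finset.sum_congr rfl h2, Finset.sum_const, nsmul_eq_mul, mul_comm]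
  exact_mod_cast h1

theorem T_zero (S : Finset (Fin k → ZMod q)) (l : Fin k → ZMod q) : T S l 0 = S.card := by
  unfold T
  simp

/-- off-diagonal weights -/
noncomputable def wt2 (a : ZMod q → ℂ) (p : ZMod q × ZMod q) : ℝ :=
  if p.1 = p.2 then 0 else ‖a p.1‖ * ‖a p.2‖

/-- off-diagonal part of the second moment -/
noncomputable def YY (a : ZMod q → ℂ) (S : Finset (Fin k → ZMod q)) (l : Fin k → ZMod q) : ℝ :=
  ∑ p : ZMod q × ZMod q, wt2 a p * ‖T S l (p.2 - p.1)‖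

/-- the function with Fourier coefficients `a` -/
noncomputable def FF (a : ZMod q → ℂ) (y : ZMod q) : ℂ :=
  ∑ j, a j * (ZMod.stdAddChar (-(j * y)) : ℂ)

omit [Fact q.Prime] in
theorem wt2_nonneg (a : ZMod q → ℂ) (p : ZMod q × ZMod q) : 0 ≤ wt2 a p := by
  unfold wt2
  split_ifs <;> positivity

theorem second_moment (a : ZMod q → ℂ) (S : Finset (Fin k → ZMod q)) (l : Fin k → ZMod q)
    (b : ZMod q) :
    ∑ s ∈ S, ‖FF a (b + dot l s)‖ ^ 2 ≤ S.card * ∑ j, ‖a j‖ ^ 2 + YY a S l := by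
  classical
  have h1 : ∀ y : ZMod q, ((‖FF a y‖ ^ 2 : ℝ) : ℂ) =
      ∑ p : ZMod q × ZMod q, a p.1 * (starRingEnd ℂ) (a p.2) *
        (ZMod.stdAddChar ((p.2 - p.1) * y) : ℂ) := by
    intro y
    rw [← Complex.normSq_eq_norm_sq, ← Complex.mul_conj]
    unfold FF
    rw [map_sum, sum_mul_sum, ← Finset.univ_product_univ, Finset.sum_product]
    refine sum_congr rfl fun i _ => sum_congr rfl fun j _ => ?_
    rw [map_mul, conj_e, show (ZMod.stdAddChar ((j - i) * y) : ℂ) =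
      ZMod.stdAddChar (-(i * y)) * ZMod.stdAddChar (- -(j * y)) by
        rw [← AddChar.map_add_eq_mul]; congr 1; ring]
    ring
  have h2 : ((∑ s ∈ S, ‖FF a (b + dot l s)‖ ^ 2 : ℝ) : ℂ) =
      ∑ p : ZMod q × ZMod q, a p.1 * (starRingEnd ℂ) (a p.2) *
        (ZMod.stdAddChar ((p.2 - p.1) * b) : ℂ) * T S l (p.2 - p.1) := by
    rw [Complex.ofReal_sum, Finset.sum_congr rfl fun s _ => h1 _, Finset.sum_comm]
    refine sum_congr rfl fun p _ => ?_
    unfold T
    rw [Finset.mul_sum]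
    refine sum_congr rfl fun s _ => ?_
    rw [mul_assoc (a p.1 * (starRingEnd ℂ) (a p.2)), ← AddChar.map_add_eq_mul]
    congr 2
    ring
  have h3 : ∑ s ∈ S, ‖FF a (b + dot l s)‖ ^ 2 ≤
      ∑ p : ZMod q × ZMod q, ‖a p.1‖ * ‖a p.2‖ * ‖T S l (p.2 - p.1)‖ := by
    have h4 : ∑ s ∈ S, ‖FF a (b + dot l s)‖ ^ 2 =
        ‖((∑ s ∈ S, ‖FF a (b + dot l s)‖ ^ 2 : ℝ) : ℂ)‖ := by
      rw [Complex.norm_real, Real.norm_of_nonneg (Finset.sum_nonneg fun _ _ => by positivity)]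
    rw [h4, h2]
    refine (norm_sum_le _ _).trans (Finset.sum_le_sum fun p _ => ?_)
    rw [norm_mul, norm_mul, norm_mul, RCLike.norm_conj, norm_e, mul_one]
  refine h3.trans ?_
  have h5 : ∀ p : ZMod q × ZMod q, ‖a p.1‖ * ‖a p.2‖ * ‖T S l (p.2 - p.1)‖ =
      (if p.1 = p.2 then (S.card : ℝ) * ‖a p.1‖ ^ 2 else 0) + wt2 a p * ‖T S l (p.2 - p.1)‖ := by
    intro p
    unfold wt2
    split_ifs with h
    · rw [← h, sub_self, T_zero, Complex.norm_natCast]
      ring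
    · ring
  rw [Finset.sum_congr rfl fun p _ => h5 p, Finset.sum_add_distrib]
  refine add_le_add (le_of_eq ?_) le_rfl
  rw [← Finset.univ_product_univ, Finset.sum_product, Finset.mul_sum]
  refine Finset.sum_congr rfl fun i _ => ?_
  simp

theorem sum_wt2 (a : ZMod q → ℂ) : ∑ p, wt2 a p ≤ (∑ j, ‖a j‖) ^ 2 := by
  rw [sq, Finset.sum_mul_sum, ← Finset.univ_product_univ, Finset.sum_product]
  refine Finset.sum_le_sum fun i _ => Finset.sum_le_sum fun j _ => ?_
  unfold wt2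
  split_ifs
  · positivity
  · exact le_rfl

theorem YY_nonneg (a : ZMod q → ℂ) (S : Finset (Fin k → ZMod q)) (l : Fin k → ZMod q) :
    0 ≤ YY a S l :=
  Finset.sum_nonneg fun p _ => mul_nonneg (wt2_nonneg a p) (norm_nonneg _)

theorem sum_YY (a : ZMod q → ℂ) (S : Finset (Fin k → ZMod q)) :
    ∑ l, YY a S l ^ 2 ≤ (∑ j, ‖a j‖) ^ 4 * ((q : ℝ) ^ k * S.card) := by
  classical
  have h1 : ∀ l : Fin k → ZMod q, YY a S l ^ 2 ≤
      (∑ p, wt2 a p) * ∑ p : ZMod q × ZMod q, wt2 a p * ‖T S l (p.2 - p.1)‖ ^ 2 := by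
    intro l
    unfold YY
    refine Finset.sum_sq_le_sum_mul_sum_of_sq_le_mul _ (fun p _ => wt2_nonneg a p)
      (fun p _ => mul_nonneg (wt2_nonneg a p) (by positivity)) (fun p _ => le_of_eq (by ring))
  refine (Finset.sum_le_sum fun l _ => h1 l).trans ?_
  rw [← Finset.mul_sum, Finset.sum_comm]
  have h2 : ∀ p : ZMod q × ZMod q, ∑ l, wt2 a p * ‖T S l (p.2 - p.1)‖ ^ 2 =
      wt2 a p * ((q : ℝ) ^ k * S.card) := by
    intro p
    rw [← Finset.mul_sum]
    by_cases h : p.1 = p.2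
    · have h3 : wt2 a p = 0 := by unfold wt2; rw [if_pos h]
      rw [h3, zero_mul, zero_mul]
    · rw [sum_T S _ (sub_ne_zero.2 (Ne.symm h))]
  rw [Finset.sum_congr rfl fun p _ => h2 p, ← Finset.sum_mul, ← mul_assoc]
  refine mul_le_mul_of_nonneg_right ?_ (by positivity)
  have h4 := sum_wt2 a
  have h5 : 0 ≤ ∑ p, wt2 a p := Finset.sum_nonneg fun p _ => wt2_nonneg a p
  calc (∑ p, wt2 a p) * ∑ p, wt2 a p ≤ (∑ j, ‖a j‖) ^ 2 * (∑ j, ‖a j‖) ^ 2 :=
        mul_le_mul h4 h4 h5 (by positivity)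
    _ = _ := by ring

end Pool.MP_dd84fd_nt.RL
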