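import Pool.Agent.Lib.MP_dd84fd_nt.RL.Four
import Pool.Agent.Lib.MP_dd84fd_nt.E2.Defs

/-!
# Random linear images: the difference of the two convolutions modulo `q`
-/

set_option autoImplicit false

namespace Pool.MP_dd84fd_nt.RL

open Finset Pool.MP_dd84fd_nt.En Pool.MP_dd84fd_nt.E2

/-- indicator function of the primes -/
noncomputable def fP (n : ℕ) : ℂ := if n.Prime then 1 else 0

/-- the model -/
noncomputable def fM (w n : ℕ) : ℂ := (f2 w n : ℂ)

theorem fP_zero : fP 0 = 0 := by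
  unfold fP
  rw [if_neg Nat.not_prime_zero]

theorem fM_zero (w : ℕ) : fM w 0 = 0 := by
  unfold fM f2
  simp

theorem fM_even (w n : ℕ) (hw : 2 ≤ w) (hn : Even n) : fM w n = 0 := by
  unfold fM f2 f1
  rw [if_neg, zero_div, Complex.ofReal_zero]
  intro h
  have h2 : 2 ∣ primorial w := by
    unfold primorial
    exact Finset.dvd_prod_of_mem _ (mem_filter.2 ⟨mem_range.2 (by omega), Nat.prime_two⟩)
  have h3 : 2 ∣ Nat.gcd n (primorial w) := Nat.dvd_gcd hn.two_dvd h2
  rw [h] at h3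
  omega

theorem sum_fP (n : ℕ) : ∑ u ∈ range (n + 1), fP u * fP (n - u) = (g n : ℂ) := by
  unfold g fP
  rw [Finset.card_filter]
  push_cast
  refine Finset.sum_congr rfl fun u _ => ?_
  by_cases h1 : u.Prime <;> by_cases h2 : (n - u).Prime <;> simp [h1, h2]

theorem sum_fM (w n : ℕ) : ∑ u ∈ range (n + 1), fM w u * fM w (n - u) = (conv2 w n : ℂ) := by
  unfold conv2
  push_cast
  rcases Nat.eq_zero_or_pos n with rfl | hn
  · simp [fM_zero]
  · rw [Finset.sum_range_succ, Nat.sub_self, fM_zero, mul_zero, add_zero]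
    have h1 : range n = insert 0 (Icc 1 (n - 1)) := by
      ext u
      simp only [mem_range, mem_insert, mem_Icc]
      omega
    rw [h1, Finset.sum_insert (by simp), fM_zero, zero_mul, zero_add]
    rfl

theorem wrap_fP (n q : ℕ) (h : ¬ Even (n + q)) :
    ‖∑ u ∈ Ico (n + 1) q, fP u * fP (n + q - u)‖ ≤ 2 := by
  classical
  refine (norm_sum_le _ _).trans ?_
  have h1 : ∀ u ∈ Ico (n + 1) q, ‖fP u * fP (n + q - u)‖ ≤
      (if u = 2 then (1 : ℝ) else 0) + (if u = n + q - 2 then 1 else 0) := by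
    intro u hu
    rw [mem_Ico] at hu
    unfold fP
    by_cases h2 : u.Prime
    · by_cases h3 : (n + q - u).Prime
      · rw [if_pos h2, if_pos h3, one_mul, norm_one]
        rcases h2.eq_two_or_odd' with h4 | h4
        · rw [if_pos h4]
          split_ifs <;> norm_num
        · rcases h3.eq_two_or_odd' with h5 | h5
          · rw [if_pos (show u = n + q - 2 by omega)]
            split_ifs <;> norm_num
          · exfalso
            apply h
            have h6 := h4.add_odd h5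
            rwa [show u + (n + q - u) = n + q by omega] at h6
      · rw [if_neg h3, mul_zero, norm_zero]
        split_ifs <;> norm_num
    · rw [if_neg h2, zero_mul, norm_zero]
      split_ifs <;> norm_num
  refine (Finset.sum_le_sum h1).trans ?_
  rw [Finset.sum_add_distrib, Finset.sum_ite_eq', Finset.sum_ite_eq']
  split_ifs <;> norm_num

theorem wrap_fM (w n q : ℕ) (hw : 2 ≤ w) (h : ¬ Even (n + q)) :
    ∑ u ∈ Ico (n + 1) q, fM w u * fM w (n + q - u) = 0 := by
  refine Finset.sum_eq_zero fun u hu => ?_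
  rw [mem_Ico] at hu
  rcases Nat.even_or_odd u with h1 | h1
  · rw [fM_even w u hw h1, zero_mul]
  · rcases Nat.even_or_odd (n + q - u) with h2 | h2
    · rw [fM_even w _ hw h2, mul_zero]
    · exfalso
      apply h
      have h6 := h1.add_odd h2
      rwa [show u + (n + q - u) = n + q by omega] at h6

variable {q : ℕ} [Fact q.Prime]

/-- Fourier coefficients of the difference of the two convolutions -/
noncomputable def aa (q : ℕ) [Fact q.Prime] (w : ℕ) (j : ZMod q) : ℂ :=
  (hat (fun y : ZMod q => fP y.val) j ^ 2 - hat (fun y : ZMod q => fM w y.val) j ^ 2) / q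

theorem FF_aa (w : ℕ) (hw : 2 ≤ w) (hq2 : q ≠ 2) (y : ZMod q) (hy : Even y.val) :
    ‖FF (aa q w) y - (((g y.val : ℝ) - conv2 w y.val : ℝ) : ℂ)‖ ≤ 2 := by
  have hqp : q.Prime := Fact.out
  have hq0 : (q : ℂ) ≠ 0 := by exact_mod_cast hqp.ne_zero
  have hodd : ¬ Even (y.val + q) := by
    have h1 : Odd q := hqp.odd_of_ne_two hq2
    rw [Nat.not_even_iff_odd]
    exact hy.add_odd h1
  have h1 : FF (aa q w) y = ∑ z : ZMod q, fP z.val * fP (y - z).val -
      ∑ z : ZMod q, fM w z.val * fM w (y - z).val := by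
    have h2 := hat_conv (fun y : ZMod q => fP y.val) y
    have h3 := hat_conv (fun y : ZMod q => fM w y.val) y
    have h4 : (q : ℂ) * FF (aa q w) y =
        ∑ j, hat (fun y : ZMod q => fP y.val) j ^ 2 * (ZMod.stdAddChar (-(j * y)) : ℂ) -
        ∑ j, hat (fun y : ZMod q => fM w y.val) j ^ 2 * (ZMod.stdAddChar (-(j * y)) : ℂ) := by
      unfold FF aa
      rw [Finset.mul_sum, ← Finset.sum_sub_distrib]
      refine Finset.sum_congr rfl fun j _ => ?_
      field_simp
    rw [h2, h3, ← mul_sub] at h4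
    exact mul_left_cancel₀ hq0 h4
  rw [h1, conv_val fP y, conv_val (fM w) y, sum_fP, sum_fM, wrap_fM w _ q hw hodd]
  have h2 : (g y.val : ℂ) + ∑ u ∈ Ico (y.val + 1) q, fP u * fP (y.val + q - u) -
      ((conv2 w y.val : ℂ) + 0) - (((g y.val : ℝ) - conv2 w y.val : ℝ) : ℂ) =
      ∑ u ∈ Ico (y.val + 1) q, fP u * fP (y.val + q - u) := by
    push_cast
    ring
  rw [h2]
  exact wrap_fP _ _ hodd

/-- the `ℓ¹` norm of the coefficients -/
theorem aa_l1 (w : ℕ) : ∑ j, ‖aa q w j‖ ≤
    (((Icc 1 (q - 1)).filter Nat.Prime).card : ℝ) + ∑ n ∈ Icc 1 (q - 1), f2 w n ^ 2 := by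
  have hqp : q.Prime := Fact.out
  have hq0 : (0 : ℝ) < q := by exact_mod_cast hqp.pos
  have h1 : ∀ j, ‖aa q w j‖ ≤ (‖hat (fun y : ZMod q => fP y.val) j‖ ^ 2 +
      ‖hat (fun y : ZMod q => fM w y.val) j‖ ^ 2) / q := by
    intro j
    unfold aa
    rw [norm_div, Complex.norm_natCast]
    refine div_le_div_of_nonneg_right ((norm_sub_le _ _).trans ?_) hq0.le
    rw [norm_pow, norm_pow]
  refine (Finset.sum_le_sum fun j _ => h1 j).trans ?_
  rw [← Finset.sum_div, Finset.sum_add_distrib, hat_parseval, hat_parseval, ← mul_add,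
    mul_div_cancel_left₀ _ hq0.ne']
  have h2 : ∑ y : ZMod q, ‖fP y.val‖ ^ 2 = (((Icc 1 (q - 1)).filter Nat.Prime).card : ℝ) := by
    rw [sum_val' (q := q) (fun n => ‖fP n‖ ^ 2) (by rw [fP_zero]; simp), Finset.card_filter]
    push_cast
    refine Finset.sum_congr rfl fun n _ => ?_
    unfold fP
    split_ifs <;> simp
  have h3 : ∑ y : ZMod q, ‖fM w y.val‖ ^ 2 = ∑ n ∈ Icc 1 (q - 1), f2 w n ^ 2 := by
    rw [sum_val' (q := q) (fun n => ‖fM w n‖ ^ 2) (by rw [fM_zero]; simp)]
    refine Finset.sum_congr rfl fun n _ => ?_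
    unfold fM
    rw [Complex.norm_real, Real.norm_eq_abs, sq_abs]
  rw [h2, h3]

theorem hat_fP (j : ZMod q) : hat (fun y : ZMod q => fP y.val) j =
    P1 (q - 1) ((j.val : ℝ) / q) := by
  rw [hat_val fP fP_zero]
  unfold P1
  rw [Finset.sum_filter]
  refine Finset.sum_congr rfl fun n _ => ?_
  unfold fP
  split_ifs <;> simp

theorem hat_fM (w : ℕ) (j : ZMod q) : hat (fun y : ZMod q => fM w y.val) j =
    F2 w (q - 1) ((j.val : ℝ) / q) := by
  rw [hat_val (fM w) (fM_zero w)]
  rfl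

/-- the sup norm of the coefficients -/
theorem aa_sup (w : ℕ) (E M : ℝ) (hE : ∀ θ : ℝ, ‖P1 (q - 1) θ - F2 w (q - 1) θ‖ ≤ E)
    (hM : ∀ n, |f2 w n| ≤ M) (j : ZMod q) : ‖aa q w j‖ ≤ E * (1 + M) := by
  have hqp : q.Prime := Fact.out
  have hq0 : (0 : ℝ) < q := by exact_mod_cast hqp.pos
  have hE0 : 0 ≤ E := (norm_nonneg _).trans (hE 0)
  have h1 := hE ((j.val : ℝ) / q)
  rw [← hat_fP, ← hat_fM] at h1
  have h2 : ‖hat (fun y : ZMod q => fP y.val) j + hat (fun y : ZMod q => fM w y.val) j‖ ≤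
      q * (1 + M) := by
    rw [← hat_add]
    refine (hat_norm_le _ j).trans ?_
    have h3 : ∀ y : ZMod q, ‖fP y.val + fM w y.val‖ ≤ 1 + M := by
      intro y
      refine (norm_add_le _ _).trans (add_le_add ?_ ?_)
      · unfold fP
        split_ifs <;> simp
      · unfold fM
        rw [Complex.norm_real, Real.norm_eq_abs]
        exact hM _
    refine (Finset.sum_le_sum fun y _ => h3 y).trans ?_
    rw [Finset.sum_const, Finset.card_univ, ZMod.card, nsmul_eq_mul]
  unfold aa
  rw [norm_div, Complex.norm_natCast, div_le_iff₀ hq0]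
  rw [show hat (fun y : ZMod q => fP y.val) j ^ 2 - hat (fun y : ZMod q => fM w y.val) j ^ 2 =
    (hat (fun y : ZMod q => fP y.val) j - hat (fun y : ZMod q => fM w y.val) j) *
    (hat (fun y : ZMod q => fP y.val) j + hat (fun y : ZMod q => fM w y.val) j) by ring, norm_mul]
  calc _ ≤ E * (q * (1 + M)) := mul_le_mul h1 h2 (norm_nonneg _) hE0
    _ = _ := by ring

end Pool.MP_dd84fd_nt.RL
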