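import Pool.Agent.Lib.MP_dd84fd_nt.Dilates

/-!
# Random linear images: few elements of any translate have a small residue
-/

set_option autoImplicit false

namespace Pool.MP_dd84fd_nt.RL

open Finset Pool.Agent.Lib.MP_dd84fd_nt.Dilates

variable {q : ℕ} [Fact q.Prime] {k : ℕ}

/-- the residues `0, …, 2h-1` -/
def AI (q h : ℕ) : Finset (ZMod q) := (range (2 * h)).image (fun n : ℕ => (n : ZMod q))

theorem AI_card (h : ℕ) (hh : 2 * h ≤ q) : (AI q h).card = 2 * h := by
  unfold AI
  rw [Finset.card_image_of_injOn, card_range]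
  intro a ha b hb hab
  simp only [coe_range, Set.mem_Iio] at ha hb
  have h1 := congrArg ZMod.val hab
  simp only at h1
  rwa [ZMod.val_cast_of_lt (by omega), ZMod.val_cast_of_lt (by omega)] at h1

theorem mem_AI (h : ℕ) (hh : 2 * h ≤ q) (x : ZMod q) : x ∈ AI q h ↔ x.val < 2 * h := by
  unfold AI
  constructor
  · intro hx
    obtain ⟨n, hn, rfl⟩ := mem_image.1 hx
    rw [mem_range] at hn
    rwa [ZMod.val_cast_of_lt (by omega)]
  · intro hx
    exact mem_image.2 ⟨x.val, mem_range.2 hx, ZMod.natCast_zmod_val x⟩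

theorem rep_ge (h : ℕ) (hh : 2 * h ≤ q) (y : ZMod q) (hy : y.val < h) :
    (h : ℝ) ≤ rep (AI q h) (y + (h : ZMod q)) := by
  classical
  have hq : 0 < q := (Fact.out : q.Prime).pos
  unfold rep
  rw [← Finset.sum_filter, Finset.sum_const, nsmul_eq_mul, mul_one]
  have h1 : ((range h).image (fun n : ℕ => (n : ZMod q))).card = h := by
    rw [Finset.card_image_of_injOn, card_range]
    intro a ha b hb hab
    simp only [coe_range, Set.mem_Iio] at ha hb
    have h1 := congrArg ZMod.val hab
    simp only at h1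
    rwa [ZMod.val_cast_of_lt (by omega), ZMod.val_cast_of_lt (by omega)] at h1
  have h2 : (range h).image (fun n : ℕ => (n : ZMod q)) ⊆
      (AI q h).filter (fun p => y + (h : ZMod q) - p ∈ AI q h) := by
    intro x hx
    obtain ⟨n, hn, rfl⟩ := mem_image.1 hx
    rw [mem_range] at hn
    rw [mem_filter, mem_AI h hh, mem_AI h hh, ZMod.val_cast_of_lt (by omega)]
    refine ⟨by omega, ?_⟩
    have h3 : y + (h : ZMod q) - (n : ZMod q) = ((y.val + h - n : ℕ) : ZMod q) := by
      rw [Nat.cast_sub (by omega)]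
      push_cast
      rw [ZMod.natCast_zmod_val]
    rw [h3, ZMod.val_cast_of_lt (by omega)]
    omega
  have h3 := card_le_card h2
  rw [h1] at h3
  exact_mod_cast h3

theorem small_count (h : ℕ) (h1 : 1 ≤ h) (hh : 2 * h ≤ q) (S : Finset (Fin k → ZMod q))
    (l : Fin k → ZMod q) (b : ZMod q) (V : ℝ) (hV0 : 0 ≤ V)
    (hV : VV (AI q h) S l ≤ 2 * h * V ^ 2) :
    ((S.filter (fun s => (b + dot l s).val < h)).card : ℝ) ≤ 4 * S.card * h / q + 2 * V := by
  classical
  have hq : (0 : ℝ) < q := by exact_mod_cast (Fact.out : q.Prime).pos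
  have hh0 : (0 : ℝ) < h := by exact_mod_cast h1
  have h2 := dev (AI q h) S l (b + (h : ZMod q))
  rw [AI_card h hh] at h2
  push_cast at h2
  have h3 : (∑ s ∈ S, rep (AI q h) (b + h + dot l s) - S.card * (2 * h) ^ 2 / q) ^ 2 ≤
      (2 * h * V) ^ 2 := by
    refine h2.trans ?_
    have : 2 * (h : ℝ) * VV (AI q h) S l ≤ 2 * h * (2 * h * V ^ 2) :=
      mul_le_mul_of_nonneg_left hV (by positivity)
    linarith [this, show (2 * (h : ℝ) * V) ^ 2 = 2 * h * (2 * h * V ^ 2) by ring]
  have h4 := abs_le_of_sq_le_sq' h3 (by positivity)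
  have h5 : ((S.filter (fun s => (b + dot l s).val < h)).card : ℝ) * h ≤
      ∑ s ∈ S, rep (AI q h) (b + h + dot l s) := by
    calc ((S.filter (fun s => (b + dot l s).val < h)).card : ℝ) * h =
          ∑ s ∈ S.filter (fun s => (b + dot l s).val < h), (h : ℝ) := by
            rw [Finset.sum_const, nsmul_eq_mul]
      _ ≤ ∑ s ∈ S.filter (fun s => (b + dot l s).val < h), rep (AI q h) (b + h + dot l s) := by
            refine Finset.sum_le_sum fun s hs => ?_
            have := rep_ge h hh (b + dot l s) (mem_filter.1 hs).2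
            rwa [show b + (h : ZMod q) + dot l s = b + dot l s + h by ring]
      _ ≤ _ := Finset.sum_le_sum_of_subset_of_nonneg (filter_subset _ _)
            (fun _ _ _ => Finset.sum_nonneg fun _ _ => by split_ifs <;> norm_num)
  have h6 : ((S.filter (fun s => (b + dot l s).val < h)).card : ℝ) * h ≤
      (4 * S.card * h / q + 2 * V) * h := by
    have h7 : (4 * (S.card : ℝ) * h / q + 2 * V) * h = S.card * (2 * h) ^ 2 / q + 2 * h * V := by
      field_simp
      ring
    rw [h7]
    linarith [h4.2]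
  exact le_of_mul_le_mul_right h6 hh0

theorem few_VV (h : ℕ) (hh : 2 * h ≤ q) (S : Finset (Fin k → ZMod q)) (V0 : ℝ) (hV : 0 < V0) :
    ((univ.filter (fun l : Fin k → ZMod q => V0 < VV (AI q h) S l)).card : ℝ) * V0 ≤
      (q : ℝ) ^ k * (S.card * (2 * h)) := by
  classical
  have h1 := sum_VV (AI q h) S
  rw [AI_card h hh] at h1
  push_cast at h1
  refine le_trans ?_ h1
  calc ((univ.filter (fun l : Fin k → ZMod q => V0 < VV (AI q h) S l)).card : ℝ) * V0 =
        ∑ l ∈ univ.filter (fun l : Fin k → ZMod q => V0 < VV (AI q h) S l), V0 := by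
          rw [Finset.sum_const, nsmul_eq_mul]
    _ ≤ ∑ l ∈ univ.filter (fun l : Fin k → ZMod q => V0 < VV (AI q h) S l), VV (AI q h) S l :=
          Finset.sum_le_sum fun l hl => (mem_filter.1 hl).2.le
    _ ≤ _ := Finset.sum_le_univ_sum_of_nonneg
          (fun l => Finset.sum_nonneg fun _ _ => sq_nonneg _)

end Pool.MP_dd84fd_nt.RL
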